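import Pool.Agent.Helper97.CK.Defs
import Pool.Agent.Helper43.CK.Cls
set_option autoImplicit false
open Complex MeasureTheory Metric Set Filter
open scoped Real ComplexConjugate Topology

/-! Project CK: compactness of the class. -/

namespace Pool.Agent.Helper97.CK

open Pool.Agent.Helper39.Area

/-- local bound (area theorem) -/
theorem Ext_bound {β : ℂ → ℂ} (h : Ext β) (h0 : β 0 = 0) {z : ℂ} (hz : ‖z‖ < 1) :
    ‖β z‖ ≤ 2 / (1 - ‖z‖) := by
  obtain ⟨x, hx⟩ : ∃ x, x = ‖z‖ := ⟨_, rfl⟩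
  have hx0 : 0 ≤ x := by rw [hx]; exact norm_nonneg z
  rw [← hx] at hz ⊢
  rw [le_div_iff₀ (by linarith)]
  rcases le_or_gt x (3 / 4) with h34 | h34
  · have h1 : ‖β z - β 0‖ ≤ ((1 - (3 / 4 : ℝ) ^ 2)⁻¹ + 1) / (3 / 4 : ℝ) ^ 2 * ‖z - 0‖ := by
      refine (convex_closedBall (0:ℂ) (3 / 4)).norm_image_sub_le_of_norm_deriv_le (𝕜 := ℂ)
        (f := β) (fun w hw => ?_) (fun w hw => ?_) ?_ ?_
      · exact h.diff.differentiableAt (isOpen_ball.mem_nhds
          (closedBall_subset_ball (by norm_num) hw))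
      · rw [mem_closedBall, dist_zero_right] at hw
        exact Pool.Agent.Helper43.CK.deriv_beta_le h (by norm_num) (by norm_num) hw
      · simp; norm_num
      · rw [mem_closedBall, dist_zero_right, ← hx]
        exact h34
    rw [h0, sub_zero, sub_zero, ← hx] at h1
    have h2 : ‖β z‖ ≤ 368 / 63 * x := by
      refine h1.trans (le_of_eq ?_)
      norm_num
    nlinarith [sq_nonneg (x - 1 / 2)]
  · have h1 := Pool.Agent.Helper43.CK.beta_le h h0 (r := x) (by linarith) hz hx.ge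
    have h2 : 0 < 1 - x ^ 2 := by nlinarith
    have h3 : ((1 - x ^ 2)⁻¹ + 1) / x ^ 2 * x * (1 - x) = (2 - x ^ 2) / (x * (1 + x)) := by
      have h4 : x ≠ 0 := by linarith
      have h5 : 1 + x ≠ 0 := by linarith
      have h6 : 1 - x ≠ 0 := by linarith
      have h7 : 1 - x ^ 2 ≠ 0 := h2.ne'
      have h8 : 1 - x ^ 2 = (1 - x) * (1 + x) := by ring
      rw [h8] at h7 ⊢
      field_simp
      ring
    calc ‖β z‖ * (1 - x) ≤ ((1 - x ^ 2)⁻¹ + 1) / x ^ 2 * x * (1 - x) :=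
          mul_le_mul_of_nonneg_right h1 (by linarith)
      _ = (2 - x ^ 2) / (x * (1 + x)) := h3
      _ ≤ 2 := by
          rw [div_le_iff₀ (by positivity)]
          nlinarith

theorem compact_Ext {b : ℕ → ℂ → ℂ} (h : ∀ n, Ext (b n)) (h0 : ∀ n, b n 0 = 0) :
    ∃ (φ : ℕ → ℕ) (β : ℂ → ℂ), StrictMono φ ∧ Ext β ∧ β 0 = 0 ∧
      TendstoLocallyUniformlyOn (fun n => b (φ n)) β atTop (ball 0 1) := by
  obtain ⟨φ, hφ, γ, hγ, hγ0, hlim⟩ := Pool.Agent.Helper43.CK.cls_compact b h h0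
  exact ⟨φ, γ, hφ, hγ, hγ0, hlim⟩

end Pool.Agent.Helper97.CK
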