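import Pool.Agent.Helper97.CK.Defs
import Pool.Agent.Helper39.Area.Branch
set_option autoImplicit false
open Complex MeasureTheory Metric Set Filter
open scoped Real ComplexConjugate Topology

/-! Project CK: lower bounds for `phi β z - phi β z'`. -/

namespace Pool.Agent.Helper97.CK

open Pool.Agent.Helper39.Area

variable {β : ℂ → ℂ}

theorem qq_lower (h : Ext β) {r : ℝ} (hr : r < 1) : ∃ c : ℝ, 0 < c ∧ ∀ z z' : ℂ, ‖z‖ ≤ r →
    ‖z'‖ ≤ r → c ≤ ‖qq β z z'‖ := by
  rcases lt_or_ge r 0 with hr0 | hr0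
  · exact ⟨1, one_pos, fun z z' hz => absurd (norm_nonneg z) (not_le.mpr (hz.trans_lt hr0))⟩
  set K : Set (ℂ × ℂ) := closedBall 0 r ×ˢ closedBall 0 r with hK
  have hsub : K ⊆ ball 0 1 ×ˢ ball 0 1 :=
    prod_mono (closedBall_subset_ball hr) (closedBall_subset_ball hr)
  have hcont : ContinuousOn (fun p : ℂ × ℂ => ‖qq β p.1 p.2‖) K := by
    have h1 := (dslope_cont h.diff).mono hsub
    unfold qq
    exact (continuousOn_const.sub
      ((continuous_fst.mul continuous_snd).continuousOn.mul h1)).norm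
  have hKc : IsCompact K := (isCompact_closedBall _ _).prod (isCompact_closedBall _ _)
  obtain ⟨p, hp, hmin⟩ := hKc.exists_isMinOn
    ⟨(0, 0), ⟨mem_closedBall_self hr0, mem_closedBall_self hr0⟩⟩ hcont
  refine ⟨‖qq β p.1 p.2‖, norm_pos_iff.mpr (qq_ne h (hsub hp).1 (hsub hp).2), ?_⟩
  intro z z' hz hz'
  exact hmin (show (z, z') ∈ K from ⟨by simpa using hz, by simpa using hz'⟩)

/-- large values are attained near the pole -/
theorem bdd_ring (h : Ext β) {r : ℝ} (hr : 0 < r) : ∃ M : ℝ, ∀ z : ℂ, r ≤ ‖z‖ → ‖z‖ < 1 →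
    ‖phi β z‖ ≤ M := by
  -- the function `g z = z / (1 + z β z)` is open at `0`
  have hβ0 : DifferentiableAt ℂ β 0 := h.diff.differentiableAt (ball_mem_nhds 0 one_pos)
  have hβan : AnalyticAt ℂ β 0 := h.diff.analyticAt (ball_mem_nhds 0 one_pos)
  set g : ℂ → ℂ := fun z => z / (1 + z * β z) with hg
  have hden : (1 + (0:ℂ) * β 0) ≠ 0 := by simp
  have hgan : AnalyticAt ℂ g 0 :=
    analyticAt_id.div (analyticAt_const.add (analyticAt_id.mul hβan)) hden
  have hgd : HasDerivAt g 1 0 := by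
    have h1 : HasDerivAt (fun z : ℂ => 1 + z * β z) (0 + (1 * β 0 + 0 * deriv β 0)) 0 :=
      (hasDerivAt_const (0:ℂ) (1:ℂ)).add ((hasDerivAt_id (0:ℂ)).mul hβ0.hasDerivAt)
    have h2 := (hasDerivAt_id (0:ℂ)).div h1 (by simp)
    refine h2.congr_deriv ?_
    simp
  have hgs : HasStrictDerivAt g 1 0 := by
    have := hgan.hasStrictDerivAt
    rwa [hgd.deriv] at this
  have hmap : map g (𝓝 0) = 𝓝 (g 0) := hgs.map_nhds_eq one_ne_zero
  have hg0 : g 0 = 0 := by simp [hg]
  -- neighbourhood where the denominator does not vanish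
  have hne : ∀ᶠ z : ℂ in 𝓝 0, 1 + z * β z ≠ 0 := by
    have hc : ContinuousAt (fun z : ℂ => 1 + z * β z) 0 :=
      continuousAt_const.add (continuousAt_id.mul hβ0.continuousAt)
    exact hc.eventually_ne (by simp)
  have hU : ({z : ℂ | 1 + z * β z ≠ 0} ∩ ball 0 (min r 1)) ∈ 𝓝 (0:ℂ) :=
    inter_mem hne (ball_mem_nhds 0 (lt_min hr one_pos))
  have himg : g '' ({z : ℂ | 1 + z * β z ≠ 0} ∩ ball 0 (min r 1)) ∈ 𝓝 (0:ℂ) := by
    have := image_mem_map (m := g) hU
    rwa [hmap, hg0] at this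
  obtain ⟨ε, hε, hsub⟩ := Metric.mem_nhds_iff.mp himg
  refine ⟨ε⁻¹, fun z hz hz1 => ?_⟩
  by_contra hcon
  push Not at hcon
  have hpos : 0 < ‖phi β z‖ := (inv_pos.mpr hε).trans hcon
  have hin : (phi β z)⁻¹ ∈ ball (0:ℂ) ε := by
    rw [mem_ball_zero_iff, norm_inv]
    exact (inv_lt_comm₀ hε hpos).mp hcon
  obtain ⟨ζ, ⟨hζ1, hζ2⟩, hζ⟩ := hsub hin
  have hphi : phi β z ≠ 0 := norm_pos_iff.mp hpos
  have hζ0 : ζ ≠ 0 := by
    rintro rfl
    apply inv_ne_zero hphi
    rw [← hζ, hg0]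
  rw [mem_ball_zero_iff] at hζ2
  have hζr : ‖ζ‖ < r := hζ2.trans_le (min_le_left _ _)
  have hζb : ζ ∈ ball (0:ℂ) 1 := mem_ball_zero_iff.mpr (hζ2.trans_le (min_le_right _ _))
  have hz0 : z ≠ 0 := by
    rintro rfl
    rw [norm_zero] at hz
    linarith
  have hphiζ : phi β ζ = phi β z := by
    have h1 : phi β ζ = (g ζ)⁻¹ := by
      simp only [hg, phi]
      field_simp
    rw [h1, hζ, inv_inv]
  have := h.inj ζ z hζb (mem_ball_zero_iff.mpr hz1) hζ0 hz0 hphiζ
  rw [this] at hζr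
  linarith

/-- by the open mapping theorem -/
theorem cross_dist (h : Ext β) {r r' : ℝ} (h0 : 0 < r) (h1 : r < r') (h2 : r' < 1) :
    ∃ c : ℝ, 0 < c ∧ ∀ z z' : ℂ, z ≠ 0 → ‖z‖ ≤ r → r' ≤ ‖z'‖ → ‖z'‖ < 1 →
      c ≤ ‖phi β z - phi β z'‖ := by
  have key : ∃ c : ℝ, 0 < c ∧ ∀ z ∈ closedBall (0:ℂ) r, ∀ z' : ℂ, z ≠ 0 → r' ≤ ‖z'‖ →
      ‖z'‖ < 1 → c ≤ ‖phi β z - phi β z'‖ := by
    refine IsCompact.induction_on (isCompact_closedBall (0:ℂ) r)
      (p := fun S => ∃ c : ℝ, 0 < c ∧ ∀ z ∈ S, ∀ z' : ℂ, z ≠ 0 → r' ≤ ‖z'‖ →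
        ‖z'‖ < 1 → c ≤ ‖phi β z - phi β z'‖) ?_ ?_ ?_ ?_
    · exact ⟨1, one_pos, fun z hz => absurd hz (notMem_empty z)⟩
    · rintro s t hst ⟨c, hc, hcs⟩
      exact ⟨c, hc, fun z hz => hcs z (hst hz)⟩
    · rintro s t ⟨c, hc, hcs⟩ ⟨d, hd, hds⟩
      refine ⟨min c d, lt_min hc hd, ?_⟩
      rintro z (hz | hz) z' hz0 hz' hz''
      · exact (min_le_left _ _).trans (hcs z hz z' hz0 hz' hz'')
      · exact (min_le_right _ _).trans (hds z hz z' hz0 hz' hz'')
    · intro z₁ hz₁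
      rw [mem_closedBall_zero_iff] at hz₁
      by_cases hz₁0 : z₁ = 0
      · subst hz₁0
        obtain ⟨M, hM⟩ := bdd_ring h (r := r') (h0.trans h1)
        have hlim : Tendsto (fun z : ℂ => ‖phi β z‖) (𝓝[≠] 0) atTop := by
          have hβ0 : ContinuousAt β 0 :=
            (h.diff.differentiableAt (ball_mem_nhds 0 one_pos)).continuousAt
          have hinv : Tendsto (fun z : ℂ => z⁻¹) (𝓝[≠] 0) (Bornology.cobounded ℂ) :=
            tendsto_inv₀_nhdsNE_zero
          have hinv2 : Tendsto (fun z : ℂ => ‖z⁻¹‖ - ‖β z‖) (𝓝[≠] 0) atTop := by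
            have h3 : Tendsto (fun z : ℂ => ‖z⁻¹‖) (𝓝[≠] 0) atTop :=
              tendsto_norm_cobounded_atTop.comp hinv
            have h4 : Tendsto (fun z : ℂ => -‖β z‖) (𝓝[≠] 0) (𝓝 (-‖β 0‖)) :=
              (hβ0.norm.neg).tendsto.mono_left nhdsWithin_le_nhds
            exact tendsto_atTop_add_right_of_le' _ (-‖β 0‖ - 1) h3
              (h4.eventually (eventually_ge_nhds (by linarith)))
          refine tendsto_atTop_mono (fun z => ?_) hinv2
          have h5 := norm_sub_le_norm_add z⁻¹ (β z)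
          exact h5
        have hev := hlim.eventually (eventually_ge_atTop (M + 1))
        refine ⟨{z : ℂ | z = 0 ∨ M + 1 ≤ ‖phi β z‖}, ?_, 1, one_pos, ?_⟩
        · apply mem_nhdsWithin_of_mem_nhds
          rw [eventually_nhdsWithin_iff] at hev
          filter_upwards [hev] with z hz
          by_cases hz0 : z = 0
          · exact Or.inl hz0
          · exact Or.inr (hz hz0)
        · rintro z (hz | hz) z' hz0 hz' hz''
          · exact absurd hz hz0
          · have h3 := hM z' hz' hz''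
            have h4 := norm_sub_norm_le (phi β z) (phi β z')
            linarith
      · -- open mapping at `z₁`
        have hz₁b : z₁ ∈ ball (0:ℂ) 1 := mem_ball_zero_iff.mpr (by linarith)
        have han : AnalyticAt ℂ (phi β) z₁ := by
          unfold phi
          exact (analyticAt_id.inv hz₁0).add (h.diff.analyticAt (isOpen_ball.mem_nhds hz₁b))
        have hd : HasDerivAt (phi β) (dphi β z₁) z₁ := hasDerivAt_phi h.diff hz₁b hz₁0
        have hd0 : dphi β z₁ ≠ 0 := by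
          have h3 := h.ne z₁ hz₁b
          intro h4
          apply h3
          unfold dphi at h4
          have h5 : deriv β z₁ = (z₁ ^ 2)⁻¹ := by linear_combination h4
          rw [h5, mul_inv_cancel₀ (pow_ne_zero 2 hz₁0), sub_self]
        have hs : HasStrictDerivAt (phi β) (dphi β z₁) z₁ := by
          have := han.hasStrictDerivAt
          rwa [hd.deriv] at this
        have hmap : map (phi β) (𝓝 z₁) = 𝓝 (phi β z₁) := hs.map_nhds_eq hd0
        have hU : (ball z₁ (r' - r) ∩ {z : ℂ | z ≠ 0}) ∈ 𝓝 z₁ :=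
          inter_mem (ball_mem_nhds z₁ (by linarith)) (isOpen_ne.mem_nhds hz₁0)
        have himg : phi β '' (ball z₁ (r' - r) ∩ {z : ℂ | z ≠ 0}) ∈ 𝓝 (phi β z₁) := by
          have := image_mem_map (m := phi β) hU
          rwa [hmap] at this
        obtain ⟨ε, hε, hsub⟩ := Metric.mem_nhds_iff.mp himg
        have hc : ContinuousAt (phi β) z₁ := hd.continuousAt
        have hev : ∀ᶠ z in 𝓝 z₁, dist (phi β z) (phi β z₁) < ε / 2 :=
          (Metric.tendsto_nhds.mp hc) (ε / 2) (half_pos hε)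
        refine ⟨_, mem_nhdsWithin_of_mem_nhds hev, ε / 2, half_pos hε, ?_⟩
        intro z hz z' hz0 hz' hz''
        by_contra hcon
        push Not at hcon
        have hz2 : dist (phi β z) (phi β z₁) < ε / 2 := hz
        have hin : phi β z' ∈ ball (phi β z₁) ε := by
          rw [mem_ball]
          have h3 : dist (phi β z') (phi β z) < ε / 2 := by
            rw [dist_comm, dist_eq_norm]
            exact hcon
          linarith [dist_triangle (phi β z') (phi β z) (phi β z₁)]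
        obtain ⟨ζ, ⟨hζ1, hζ2⟩, hζ⟩ := hsub hin
        have hζn : ‖ζ‖ < r' := by
          rw [mem_ball, dist_eq_norm] at hζ1
          have h3 := norm_sub_norm_le ζ z₁
          linarith
        have hz'0 : z' ≠ 0 := by
          rintro rfl
          rw [norm_zero] at hz'
          linarith
        have := h.inj ζ z' (mem_ball_zero_iff.mpr (by linarith))
          (mem_ball_zero_iff.mpr hz'') hζ2 hz'0 hζ
        rw [this] at hζn
        linarith
  obtain ⟨c, hc, hcs⟩ := key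
  exact ⟨c, hc, fun z z' hz0 hz hz' hz'' =>
    hcs z (mem_closedBall_zero_iff.mpr hz) z' hz0 hz' hz''⟩

end Pool.Agent.Helper97.CK
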