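import Pool.Agent.Helper52.EK.Defs
set_option autoImplicit false
open Complex MeasureTheory Metric Set
open scoped Real ComplexConjugate

/-! Project CK (critical multiplier): definitions of the analytic part.

Class: `Ext β`, `phi β z = 1/z + β z` univalent in the punctured disc. Weight `W` with compact
support in a ring `ρ < |z| < 1`, functional `J`. -/

namespace Pool.Agent.Helper97.CK

open Pool.Agent.Helper39.Area

/-- the open ring -/
def Ring (r₁ r₂ : ℝ) : Set ℂ := {z | r₁ < ‖z‖ ∧ ‖z‖ < r₂}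

/-- the outside of a disc -/
def Outs (r₁ : ℝ) : Set ℂ := {z | r₁ < ‖z‖}

theorem isOpen_Ring (r₁ r₂ : ℝ) : IsOpen (Ring r₁ r₂) :=
  (isOpen_lt continuous_const continuous_norm).inter (isOpen_lt continuous_norm continuous_const)

theorem isOpen_Outs (r₁ : ℝ) : IsOpen (Outs r₁) := isOpen_lt continuous_const continuous_norm

/-- a weight: `C¹`, nonnegative, with compact support in the ring `ρ < |z| < 1` -/
structure Wt (ρ : ℝ) (W : ℂ → ℝ) : Prop where
  smooth : ContDiff ℝ 1 W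
  nonneg : ∀ z, 0 ≤ W z
  supp : HasCompactSupport W
  ring : tsupport W ⊆ Ring ρ 1

/-- the gradient as a complex number -/
noncomputable def grad (W : ℂ → ℝ) (z : ℂ) : ℂ :=
  ((fderiv ℝ W z 1 : ℝ) : ℂ) + ((fderiv ℝ W z I : ℝ) : ℂ) * I

/-- the functional -/
noncomputable def J (κ : ℝ) (W : ℂ → ℝ) (β : ℂ → ℂ) : ℝ :=
  ∫ z : ℂ, W z * ‖dphi β z‖ ^ (-κ)

/-- `β` maximises `J κ W` in the class -/
def IsMaxi (κ : ℝ) (W : ℂ → ℝ) (β : ℂ → ℂ) : Prop :=
  Ext β ∧ ∀ β' : ℂ → ℂ, Ext β' → J κ W β' ≤ J κ W β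

/-- the vector field `h` of the variation: `h(z) = b/(z-z₀) - conj b z/(1 - conj z₀ z)` -/
noncomputable def hv (z₀ b z : ℂ) : ℂ := b / (z - z₀) - conj b * z / (1 - conj z₀ * z)

/-- the first variation of `phi β` -/
noncomputable def VV (β : ℂ → ℂ) (z₀ b z : ℂ) : ℂ :=
  -b * z₀ * dphi β z₀ ^ 2 / (phi β z - phi β z₀) + dphi β z * (z * hv z₀ b z)

/-- reflection: `P z - conj (P (1 / conj z))` -/
noncomputable def rp (P : ℂ → ℂ) (z : ℂ) : ℂ := P z - conj (P (conj z)⁻¹)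

/-- the nonlinear function of the fixed point problem -/
noncomputable def Th (β : ℂ → ℂ) (w₀ e : ℂ) (t : ℝ) (z u : ℂ) : ℂ :=
  (phi β (z * Complex.exp u) - phi β z - z * dphi β z * u +
    t * e / (phi β (z * Complex.exp u) - w₀)) / (z * dphi β z)

/-- the kernel of the critical identity -/
noncomputable def Kern (κ : ℝ) (W : ℂ → ℝ) (β : ℂ → ℂ) (z₀ a : ℂ) : ℂ :=
  ((‖dphi β a‖ ^ (-κ) : ℝ) : ℂ) *
    ((W a : ℂ) * (κ * z₀ * dphi β z₀ ^ 2 / (phi β a - phi β z₀) ^ 2 -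
        (κ + 2) * (z₀ / (a - z₀) ^ 2 +
          conj a * (2 - z₀ * conj a) / (1 - z₀ * conj a) ^ 2)) +
      (conj (grad W a) * a / (a - z₀) - grad W a * conj a ^ 2 / (1 - z₀ * conj a)))

end Pool.Agent.Helper97.CK
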