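import Pool.Agent.Helper97.CK.Defs
import Mathlib.Analysis.Calculus.LineDeriv.IntegrationByParts
set_option autoImplicit false
open Complex MeasureTheory Metric Set Filter
open scoped Real ComplexConjugate Topology

/-! Project CK: the divergence theorem. -/

namespace Pool.Agent.Helper97.CK

open Pool.Agent.Helper39.Area

theorem gs_cont {ρ : ℝ} {W : ℂ → ℝ} (hW : Wt ρ W) {G : ℂ → ℝ}
    (hG : ContinuousOn G (Ring ρ 1)) (h0 : ∀ z, z ∉ tsupport W → G z = 0) : Continuous G := by
  rw [continuous_iff_continuousAt]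
  intro z
  by_cases hz : z ∈ tsupport W
  · exact hG.continuousAt ((isOpen_Ring ρ 1).mem_nhds (hW.ring hz))
  · have h : G =ᶠ[𝓝 z] fun _ => (0 : ℝ) := by
      filter_upwards [(isClosed_tsupport W).isOpen_compl.mem_nhds hz] with y hy using h0 y hy
    exact (continuousAt_const (y := (0 : ℝ))).congr h.symm

theorem gs_integrable {ρ : ℝ} {W : ℂ → ℝ} (hW : Wt ρ W) {G : ℂ → ℝ}
    (hG : ContinuousOn G (Ring ρ 1)) (h0 : ∀ z, z ∉ tsupport W → G z = 0) : Integrable G :=
  (gs_cont hW hG h0).integrable_of_hasCompactSupport (HasCompactSupport.intro hW.supp h0)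

theorem gs_line {g : ℂ → ℂ} {z D : ℂ} (hg : HasDerivAt g D z) (w : ℂ) :
    HasDerivAt (fun t : ℝ => g (z + t • w)) (w * D) 0 := by
  have h1 : HasDerivAt (fun t : ℝ => z + t • w) ((1 : ℝ) • w) 0 :=
    ((hasDerivAt_id (0 : ℝ)).smul_const w).const_add z
  have h2 : HasFDerivAt g ((ContinuousLinearMap.toSpanSingleton ℂ D).restrictScalars ℝ)
      (z + (0 : ℝ) • w) := by
    have := hg.hasFDerivAt.restrictScalars ℝ
    simpa using this
  have h3 := h2.comp_hasDerivAt (0 : ℝ) h1
  have e : ((ContinuousLinearMap.toSpanSingleton ℂ D).restrictScalars ℝ) ((1 : ℝ) • w) =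
      w * D := by
    simp
  rw [e] at h3
  exact h3

theorem gs_norm {g : ℂ → ℂ} {z D : ℂ} (hg : HasDerivAt g D z) (h0 : g z ≠ 0) (κ : ℝ) (w : ℂ) :
    HasDerivAt (fun t : ℝ => ‖g (z + t • w)‖ ^ (-κ))
      (-κ * ‖g z‖ ^ (-κ) * (w * D / g z).re) 0 := by
  have h1 := gs_line hg w
  have h2 := h1.norm_sq
  have hz : g (z + (0 : ℝ) • w) = g z := by simp
  have hp : 0 < ‖g z‖ := norm_pos_iff.2 h0
  have h3 := h2.rpow_const (p := -κ / 2) (Or.inl (by rw [hz]; positivity))
  have e1 : (fun t : ℝ => (‖g (z + t • w)‖ ^ 2) ^ (-κ / 2)) =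
      fun t : ℝ => ‖g (z + t • w)‖ ^ (-κ) := by
    funext t
    rw [← Real.rpow_natCast, ← Real.rpow_mul (norm_nonneg _)]
    congr 1
    push_cast
    ring
  rw [e1] at h3
  convert h3 using 1
  rw [hz, Complex.inner]
  have e2 : (‖g z‖ ^ 2) ^ (-κ / 2 - 1) = ‖g z‖ ^ (-κ) / ‖g z‖ ^ 2 := by
    rw [← Real.rpow_natCast, ← Real.rpow_mul hp.le, ← Real.rpow_sub hp]
    congr 1
    push_cast
    ring
  have e3 : (w * D / g z).re = (conj (g z) * (w * D)).re / ‖g z‖ ^ 2 := by
    rw [div_eq_mul_inv, Complex.inv_def, ← mul_assoc, Complex.re_mul_ofReal,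
      Complex.normSq_eq_norm_sq, mul_comm (w * D), div_eq_mul_inv]
  rw [e2, e3]
  ring_nf

theorem gs_sum {F₁ F₂ H₁ H₂ A : ℂ → ℝ} (κ : ℝ) (i₁ : Integrable F₁) (i₂ : Integrable F₂)
    (j₁ : Integrable H₁) (j₂ : Integrable H₂) (iA : Integrable A)
    (e₁ : ∫ z, F₁ z = -∫ z, H₁ z) (e₂ : ∫ z, F₂ z = -∫ z, H₂ z) :
    κ * ∫ z, A z = ∫ z, F₁ z + F₂ z + (H₁ z + H₂ z) + κ * A z := by
  have iF : Integrable (fun z => F₁ z + F₂ z) := i₁.add i₂
  have iH : Integrable (fun z => H₁ z + H₂ z) := j₁.add j₂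
  have iS : Integrable (fun z => F₁ z + F₂ z + (H₁ z + H₂ z)) := iF.add iH
  rw [integral_add iS (iA.const_mul κ), integral_add iF iH, integral_add i₁ i₂,
    integral_add j₁ j₂, integral_const_mul, e₁, e₂]
  ring

/-- `∫ div (W |f'|^-κ v) = 0` -/
theorem gauss {κ ρ : ℝ} {W : ℂ → ℝ} (hρ : 0 < ρ) (hW : Wt ρ W) {β : ℂ → ℂ} (hβ : Ext β)
    {v : ℂ → ℂ} (hv : DifferentiableOn ℂ v (Ring ρ 1)) :
    κ * ∫ z : ℂ, W z * ‖dphi β z‖ ^ (-κ) * (v z * deriv (dphi β) z / dphi β z).re =
      ∫ z : ℂ, ‖dphi β z‖ ^ (-κ) * (2 * W z * (deriv v z).re + (conj (grad W z) * v z).re) := by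
  have hR := isOpen_Ring ρ 1
  have hball : ∀ z ∈ Ring ρ 1, z ∈ ball (0 : ℂ) 1 ∧ z ≠ 0 := by
    intro z hz
    refine ⟨by rw [mem_ball_zero_iff]; exact hz.2, ?_⟩
    rintro rfl
    have := hz.1
    rw [norm_zero] at this
    linarith
  have hd : DifferentiableOn ℂ (dphi β) (Ring ρ 1) := by
    intro z hz
    obtain ⟨h1, h2⟩ := hball z hz
    have h3 : DifferentiableAt ℂ (deriv β) z :=
      (hβ.diff.deriv isOpen_ball).differentiableAt (isOpen_ball.mem_nhds h1)
    have h4 : DifferentiableAt ℂ (fun z : ℂ => -(z ^ 2)⁻¹) z :=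
      ((differentiableAt_id.pow 2).inv (pow_ne_zero 2 h2)).neg
    exact (h4.add h3).differentiableWithinAt
  have hne : ∀ z ∈ Ring ρ 1, dphi β z ≠ 0 := by
    intro z hz
    obtain ⟨h1, h2⟩ := hball z hz
    have h3 := hβ.ne z h1
    have h4 : dphi β z = -(1 - z ^ 2 * deriv β z) / z ^ 2 := by
      unfold dphi
      field_simp
      ring
    rw [h4]
    exact div_ne_zero (neg_ne_zero.2 h3) (pow_ne_zero 2 h2)
  have hdd : ∀ z ∈ Ring ρ 1, HasDerivAt (dphi β) (deriv (dphi β) z) z := fun z hz =>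
    (hd.differentiableAt (hR.mem_nhds hz)).hasDerivAt
  have hvd : ∀ z ∈ Ring ρ 1, HasDerivAt v (deriv v z) z := fun z hz =>
    (hv.differentiableAt (hR.mem_nhds hz)).hasDerivAt
  set P : ℂ → ℝ := fun z => ‖dphi β z‖ ^ (-κ) with hP
  set q : ℂ → ℂ := fun z => deriv (dphi β) z / dphi β z with hq
  -- continuity
  have cv : ContinuousOn v (Ring ρ 1) := hv.continuousOn
  have cv' : ContinuousOn (deriv v) (Ring ρ 1) := (hv.deriv hR).continuousOn
  have cP : ContinuousOn P (Ring ρ 1) :=
    hd.continuousOn.norm.rpow_const fun z hz => Or.inl (norm_ne_zero_iff.2 (hne z hz))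
  have cq : ContinuousOn q (Ring ρ 1) := (hd.deriv hR).continuousOn.div hd.continuousOn hne
  have cW : Continuous W := hW.smooth.continuous
  have cW' : Continuous (fderiv ℝ W) := hW.smooth.continuous_fderiv one_ne_zero
  have W0 : ∀ z, z ∉ tsupport W → W z = 0 := fun z hz => image_eq_zero_of_notMem_tsupport hz
  have W0' : ∀ z, z ∉ tsupport W → fderiv ℝ W z = 0 := by
    intro z hz
    by_contra h
    exact hz (support_fderiv_subset ℝ h)
  -- the two partial integrations
  have key : ∀ (w : ℂ) (r r' : ℂ → ℝ), ContinuousOn r (Ring ρ 1) → ContinuousOn r' (Ring ρ 1) →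
      (∀ z ∈ Ring ρ 1, HasDerivAt (fun t : ℝ => r (z + t • w)) (r' z) 0) →
      ∫ z, W z * (-κ * P z * (w * q z).re * r z + P z * r' z) =
        -∫ z, fderiv ℝ W z w * (P z * r z) := by
    intro w r r' cr cr' hr
    have c1 : ContinuousOn (fun z => -κ * P z * (w * q z).re * r z + P z * r' z) (Ring ρ 1) := by
      have : ContinuousOn (fun z => (w * q z).re) (Ring ρ 1) :=
        Complex.continuous_re.comp_continuousOn (continuousOn_const.mul cq)
      exact (((continuousOn_const.mul cP).mul this).mul cr).add (cP.mul cr')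
    have i1 : Integrable (fun z => (ContinuousLinearMap.mul ℝ ℝ) (fderiv ℝ W z w) (P z * r z)) :=
      gs_integrable hW (((cW'.clm_apply continuous_const).continuousOn).mul (cP.mul cr))
        fun z hz => by simp [W0' z hz]
    have i2 : Integrable (fun z => (ContinuousLinearMap.mul ℝ ℝ) (W z)
        (-κ * P z * (w * q z).re * r z + P z * r' z)) :=
      gs_integrable hW (cW.continuousOn.mul c1) fun z hz => by simp [W0 z hz]
    have i3 : Integrable (fun z => (ContinuousLinearMap.mul ℝ ℝ) (W z) (P z * r z)) :=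
      gs_integrable hW (cW.continuousOn.mul (cP.mul cr)) fun z hz => by simp [W0 z hz]
    have h := integral_bilinear_hasLineDerivAt_right_eq_neg_left_of_integrable (μ := volume)
      (v := w) i1 i2 i3
      (fun z _ => (hW.smooth.differentiable one_ne_zero z).hasFDerivAt.hasLineDerivAt w)
      (fun z hz => by
        have hz' := hW.ring hz
        have h1 := gs_norm (hdd z hz') (hne z hz') κ w
        have h2 := h1.mul (hr z hz')
        have e : -κ * P z * (w * q z).re * r z + P z * r' z =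
            -κ * ‖dphi β z‖ ^ (-κ) * (w * deriv (dphi β) z / dphi β z).re * r (z + (0 : ℝ) • w) +
              ‖dphi β (z + (0 : ℝ) • w)‖ ^ (-κ) * r' z := by
          simp only [hP, hq, zero_smul, add_zero, mul_div_assoc]
        rw [e]
        exact h2)
    simpa using h
  have k1 := key 1 (fun z => (v z).re) (fun z => (deriv v z).re)
    (Complex.continuous_re.comp_continuousOn cv) (Complex.continuous_re.comp_continuousOn cv')
    (fun z hz => by
      have h := gs_line (hvd z hz) 1
      have h' : HasDerivAt (fun t : ℝ => (v (z + t • (1 : ℂ))).re) ((1 * deriv v z).re) 0 :=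
        Complex.reCLM.hasFDerivAt.comp_hasDerivAt (0 : ℝ) h
      rw [one_mul] at h'
      exact h')
  have k2 := key I (fun z => (v z).im) (fun z => (deriv v z).re)
    (Complex.continuous_im.comp_continuousOn cv) (Complex.continuous_re.comp_continuousOn cv')
    (fun z hz => by
      have h := gs_line (hvd z hz) I
      have h' : HasDerivAt (fun t : ℝ => (v (z + t • I)).im) ((I * deriv v z).im) 0 :=
        Complex.imCLM.hasFDerivAt.comp_hasDerivAt (0 : ℝ) h
      have e : (I * deriv v z).im = (deriv v z).re := by simp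
      rw [e] at h'
      exact h')
  have cre : ContinuousOn (fun z => (v z).re) (Ring ρ 1) :=
    Complex.continuous_re.comp_continuousOn cv
  have cim : ContinuousOn (fun z => (v z).im) (Ring ρ 1) :=
    Complex.continuous_im.comp_continuousOn cv
  have cdv : ContinuousOn (fun z => (deriv v z).re) (Ring ρ 1) :=
    Complex.continuous_re.comp_continuousOn cv'
  have cw : ∀ w : ℂ, ContinuousOn (fun z => (w * q z).re) (Ring ρ 1) := fun w =>
    Complex.continuous_re.comp_continuousOn (continuousOn_const.mul cq)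
  have iF1 : Integrable (fun z => W z * (-κ * P z * (1 * q z).re * (v z).re +
      P z * (deriv v z).re)) :=
    gs_integrable hW (cW.continuousOn.mul ((((continuousOn_const.mul cP).mul (cw 1)).mul cre).add
      (cP.mul cdv))) fun z hz => by simp [W0 z hz]
  have iF2 : Integrable (fun z => W z * (-κ * P z * (I * q z).re * (v z).im +
      P z * (deriv v z).re)) :=
    gs_integrable hW (cW.continuousOn.mul ((((continuousOn_const.mul cP).mul (cw I)).mul cim).add
      (cP.mul cdv))) fun z hz => by simp [W0 z hz]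
  have iH1 : Integrable (fun z => fderiv ℝ W z 1 * (P z * (v z).re)) :=
    gs_integrable hW (((cW'.clm_apply continuous_const).continuousOn).mul (cP.mul cre))
      fun z hz => by simp [W0' z hz]
  have iH2 : Integrable (fun z => fderiv ℝ W z I * (P z * (v z).im)) :=
    gs_integrable hW (((cW'.clm_apply continuous_const).continuousOn).mul (cP.mul cim))
      fun z hz => by simp [W0' z hz]
  have iA : Integrable (fun z => W z * P z * (v z * q z).re) :=
    gs_integrable hW ((cW.continuousOn.mul cP).mul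
      (Complex.continuous_re.comp_continuousOn (cv.mul cq))) fun z hz => by simp [W0 z hz]
  have eA : ∀ z, W z * ‖dphi β z‖ ^ (-κ) * (v z * deriv (dphi β) z / dphi β z).re =
      W z * P z * (v z * q z).re := fun z => by rw [mul_div_assoc]
  have eB : ∀ z, ‖dphi β z‖ ^ (-κ) * (2 * W z * (deriv v z).re + (conj (grad W z) * v z).re) =
      (W z * (-κ * P z * (1 * q z).re * (v z).re + P z * (deriv v z).re) +
        W z * (-κ * P z * (I * q z).re * (v z).im + P z * (deriv v z).re)) +
      (fderiv ℝ W z 1 * (P z * (v z).re) + fderiv ℝ W z I * (P z * (v z).im)) +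
      κ * (W z * P z * (v z * q z).re) := by
    intro z
    have e1 : (conj (grad W z) * v z).re =
        fderiv ℝ W z 1 * (v z).re + fderiv ℝ W z I * (v z).im := by
      unfold grad
      simp
    rw [e1]
    simp only [one_mul, Complex.mul_re, Complex.I_re, Complex.I_im]
    ring
  simp only [eA, eB]
  exact gs_sum κ iF1 iF2 iH1 iH2 iA k1 k2

end Pool.Agent.Helper97.CK
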