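import Pool.Agent.Helper97.CK.Defs
set_option autoImplicit false
open Complex MeasureTheory Metric Set Filter
open scoped Real ComplexConjugate Topology

/-! Project CK: the maps `ψ z = z exp (rp P z)` of the ring. -/

namespace Pool.Agent.Helper97.CK

private lemma inv_conj_norm (z : ℂ) : ‖(conj z)⁻¹‖ = ‖z‖⁻¹ := by simp

lemma rp_hasDeriv {r₁ : ℝ} (h0 : 0 < r₁) {P : ℂ → ℂ} (hP : DifferentiableOn ℂ P (Outs r₁))
    {z : ℂ} (hz : z ∈ Ring r₁ r₁⁻¹) :
    HasDerivAt (rp P) (deriv P z + conj (deriv P (conj z)⁻¹) * (z ^ 2)⁻¹) z := by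
  have hz0 : z ≠ 0 := by
    intro h; rw [h] at hz; have := hz.1; simp at this; linarith
  have hd : ∀ w : ℂ, r₁ < ‖w‖ → HasDerivAt P (deriv P w) w := fun w hw =>
    (hP.differentiableAt ((isOpen_Outs r₁).mem_nhds hw)).hasDerivAt
  have hw : r₁ < ‖conj z⁻¹‖ := by
    rw [RCLike.norm_conj, norm_inv]
    have h2 := hz.2
    rwa [lt_inv_comm₀ (norm_pos_iff.mpr hz0) h0] at h2
  have h1 := (hd _ hw).conj_conj
  rw [Complex.conj_conj] at h1
  have h2 : HasDerivAt (fun z : ℂ => (conj ∘ P ∘ conj) z⁻¹)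
      (conj (deriv P (conj z⁻¹)) * (-(z ^ 2)⁻¹)) z := h1.comp z (hasDerivAt_inv hz0)
  have h3 := (hd z hz.1).sub h2
  have e1 : rp P = fun z => P z - (conj ∘ P ∘ conj) z⁻¹ := by
    funext x; simp [rp, Function.comp]
  have h4 : HasDerivAt (rp P) (deriv P z - conj (deriv P (conj z⁻¹)) * (-(z ^ 2)⁻¹)) z := by
    rw [e1]; exact h3
  have e2 : deriv P z + conj (deriv P (conj z)⁻¹) * (z ^ 2)⁻¹ =
      deriv P z - conj (deriv P (conj z⁻¹)) * (-(z ^ 2)⁻¹) := by rw [map_inv₀]; ring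
  rw [e2]; exact h4

theorem rp_diff {r₁ : ℝ} (h0 : 0 < r₁) {P : ℂ → ℂ} (hP : DifferentiableOn ℂ P (Outs r₁)) :
    DifferentiableOn ℂ (rp P) (Ring r₁ r₁⁻¹) := fun _ hz =>
  (rp_hasDeriv h0 hP hz).differentiableAt.differentiableWithinAt

/-- all bounds on the closed ring `(r₁ + r)/2 ≤ |z| ≤ 1` -/
lemma rp_bounds {r₁ r : ℝ} (h0 : 0 < r₁) (h1 : r₁ < r) (h2 : r < 1) {P : ℂ → ℂ} {s : ℝ}
    (hP : DifferentiableOn ℂ P (Outs r₁)) (hs : 0 ≤ s) (hb : ∀ z, r₁ < ‖z‖ → ‖z‖ * ‖P z‖ ≤ s)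
    {z : ℂ} (hz : (r₁ + r) / 2 ≤ ‖z‖) (hz1 : ‖z‖ ≤ 1) :
    z ∈ Ring r₁ r₁⁻¹ ∧ ‖rp P z‖ ≤ (r₁⁻¹ + 1) * s ∧
      ‖deriv P z + conj (deriv P (conj z)⁻¹) * (z ^ 2)⁻¹‖ ≤
        (4 / (r₁ * (r - r₁)) * (1 + (r₁ ^ 2)⁻¹)) * s := by
  have hr1 : r₁ < 1 := h1.trans h2
  have hr1i : 1 < r₁⁻¹ := (one_lt_inv₀ h0).mpr hr1
  have hzr : r₁ < ‖z‖ := by linarith
  have hz0 : 0 < ‖z‖ := h0.trans hzr
  have hmem : z ∈ Ring r₁ r₁⁻¹ := ⟨hzr, lt_of_le_of_lt hz1 hr1i⟩
  have hP1 : ∀ w : ℂ, r₁ < ‖w‖ → ‖P w‖ ≤ s / r₁ := by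
    intro w hw
    have hw0 : 0 < ‖w‖ := h0.trans hw
    have h3 : ‖P w‖ ≤ s / ‖w‖ := by
      rw [le_div_iff₀ hw0, mul_comm]; exact hb w hw
    exact h3.trans (div_le_div_of_nonneg_left hs h0 hw.le)
  -- Cauchy estimate
  have hC : ∀ w : ℂ, (r₁ + r) / 2 ≤ ‖w‖ → ‖deriv P w‖ ≤ s / r₁ / ((r - r₁) / 4) := by
    intro w hw
    have hρ : 0 < (r - r₁) / 4 := by linarith
    have hsub : closedBall w ((r - r₁) / 4) ⊆ Outs r₁ := by
      intro x hx
      rw [mem_closedBall, dist_eq_norm] at hx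
      have h4 : ‖w‖ ≤ ‖x‖ + ‖x - w‖ := by
        have := norm_sub_norm_le w x
        rw [norm_sub_rev] at this
        linarith
      show r₁ < ‖x‖
      linarith
    apply Complex.norm_deriv_le_of_forall_mem_sphere_norm_le hρ
    · exact ((hP.mono hsub).diffContOnCl_ball subset_rfl)
    · intro x hx
      exact hP1 x (hsub (sphere_subset_closedBall hx))
  have hc1 := hC z hz
  have hinv : ‖(conj z)⁻¹‖ = ‖z‖⁻¹ := inv_conj_norm z
  have hinv1 : 1 ≤ ‖z‖⁻¹ := (one_le_inv₀ hz0).mpr hz1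
  have hc2 := hC (conj z)⁻¹ (by rw [hinv]; linarith)
  refine ⟨hmem, ?_, ?_⟩
  · have e1 : ‖P z‖ ≤ s / r₁ := hP1 z hzr
    have e2 : ‖P (conj z)⁻¹‖ ≤ s := by
      have h5 := hb (conj z)⁻¹ (by rw [hinv]; linarith)
      rw [hinv] at h5
      have : ‖P (conj z)⁻¹‖ ≤ ‖z‖⁻¹ * ‖P (conj z)⁻¹‖ := by
        have := norm_nonneg (P (conj z)⁻¹); nlinarith
      linarith
    calc ‖rp P z‖ ≤ ‖P z‖ + ‖conj (P (conj z)⁻¹)‖ := norm_sub_le _ _
      _ = ‖P z‖ + ‖P (conj z)⁻¹‖ := by rw [RCLike.norm_conj]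
      _ ≤ s / r₁ + s := add_le_add e1 e2
      _ = (r₁⁻¹ + 1) * s := by field_simp
  · have e3 : ‖(z ^ 2)⁻¹‖ ≤ (r₁ ^ 2)⁻¹ := by
      rw [norm_inv, norm_pow]
      apply inv_anti₀ (by positivity)
      exact pow_le_pow_left₀ h0.le hzr.le 2
    have e4 : s / r₁ / ((r - r₁) / 4) = 4 / (r₁ * (r - r₁)) * s := by
      have : r - r₁ ≠ 0 := by linarith
      field_simp
    rw [e4] at hc1 hc2
    calc ‖deriv P z + conj (deriv P (conj z)⁻¹) * (z ^ 2)⁻¹‖
        ≤ ‖deriv P z‖ + ‖conj (deriv P (conj z)⁻¹) * (z ^ 2)⁻¹‖ := norm_add_le _ _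
      _ = ‖deriv P z‖ + ‖deriv P (conj z)⁻¹‖ * ‖(z ^ 2)⁻¹‖ := by
          rw [norm_mul, RCLike.norm_conj]
      _ ≤ 4 / (r₁ * (r - r₁)) * s + 4 / (r₁ * (r - r₁)) * s * (r₁ ^ 2)⁻¹ := by
          apply add_le_add hc1
          apply mul_le_mul hc2 e3 (norm_nonneg _)
          have : 0 < r - r₁ := by linarith
          positivity
      _ = (4 / (r₁ * (r - r₁)) * (1 + (r₁ ^ 2)⁻¹)) * s := by ring

/-- `Re (rp P) = 0` on the unit circle, so `ψ` maps the ring into the unit disc; injective -/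
theorem psi_ring {r₁ r : ℝ} (h0 : 0 < r₁) (h1 : r₁ < r) (h2 : r < 1) : ∃ K δ : ℝ, 0 < K ∧ 0 < δ ∧
    ∀ (P : ℂ → ℂ) (s : ℝ), 0 ≤ s → s < δ → DifferentiableOn ℂ P (Outs r₁) →
    (∀ z, r₁ < ‖z‖ → ‖z‖ * ‖P z‖ ≤ s) →
      (∀ z ∈ Ring r 1, ‖z * Complex.exp (rp P z)‖ < 1 ∧
        ‖z * Complex.exp (rp P z) - z‖ ≤ K * s) ∧
      InjOn (fun z => z * Complex.exp (rp P z)) (Ring r 1) := by
  set c1 : ℝ := r₁⁻¹ + 1 with hc1
  set c2 : ℝ := 4 / (r₁ * (r - r₁)) * (1 + (r₁ ^ 2)⁻¹) with hc2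
  have hrr : 0 < r - r₁ := by linarith
  have c1p : 0 < c1 := by positivity
  have c2p : 0 < c2 := by positivity
  set K0 : ℝ := 2 * c1 + 3 * c2 + 1 with hK0
  have K0p : 0 < K0 := by positivity
  have hrr1 : r - r₁ < 1 := by linarith
  refine ⟨2 * c1, (r - r₁) / (8 * K0), by positivity, by positivity, ?_⟩
  intro P s hs hsδ hP hb
  have hsK : s * (8 * K0) < r - r₁ := by rwa [lt_div_iff₀ (by positivity)] at hsδ
  have hsc1 : c1 * s ≤ 1 := by
    have : c1 * s ≤ K0 * s := mul_le_mul_of_nonneg_right (by rw [hK0]; linarith) hs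
    nlinarith
  have B := fun {z : ℂ} (hz : (r₁ + r) / 2 ≤ ‖z‖) (hz1 : ‖z‖ ≤ 1) =>
    rp_bounds h0 h1 h2 hP hs hb hz hz1
  -- the function g z = z (exp (rp P z) - 1)
  set g : ℂ → ℂ := fun z => z * (Complex.exp (rp P z) - 1) with hg
  have hgb : ∀ z : ℂ, (r₁ + r) / 2 ≤ ‖z‖ → ‖z‖ ≤ 1 → ‖g z‖ ≤ 2 * c1 * s := by
    intro z hz hz1
    obtain ⟨-, hb1, -⟩ := B hz hz1
    have h5 : ‖Complex.exp (rp P z) - 1‖ ≤ 2 * ‖rp P z‖ :=
      Complex.norm_exp_sub_one_le (hb1.trans hsc1)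
    calc ‖g z‖ = ‖z‖ * ‖Complex.exp (rp P z) - 1‖ := norm_mul _ _
      _ ≤ 1 * (2 * (c1 * s)) := by
          apply mul_le_mul hz1 (h5.trans (by linarith)) (norm_nonneg _) zero_le_one
      _ = 2 * c1 * s := by ring
  have hgd : ∀ z : ℂ, (r₁ + r) / 2 ≤ ‖z‖ → ‖z‖ ≤ 1 → ∃ g', HasDerivAt g g' z ∧ ‖g'‖ ≤ 1 / 2 := by
    intro z hz hz1
    obtain ⟨hm, hb1, hb2⟩ := B hz hz1
    have hd := rp_hasDeriv h0 hP hm
    set u' := deriv P z + conj (deriv P (conj z)⁻¹) * (z ^ 2)⁻¹ with hu'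
    have hgd := (hasDerivAt_id z).mul ((hd.cexp).sub_const (1:ℂ))
    refine ⟨_, hgd, ?_⟩
    have h5 : ‖Complex.exp (rp P z) - 1‖ ≤ 2 * (c1 * s) :=
      (Complex.norm_exp_sub_one_le (hb1.trans hsc1)).trans (by linarith)
    have h6 : ‖Complex.exp (rp P z)‖ ≤ 3 := by
      rw [Complex.norm_exp]
      have : (rp P z).re ≤ 1 := (Complex.re_le_norm _).trans (hb1.trans hsc1)
      calc Real.exp (rp P z).re ≤ Real.exp 1 := Real.exp_le_exp.mpr this
        _ ≤ 3 := by have := Real.exp_one_lt_d9; linarith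
    have h7 : ‖id z * (Complex.exp (rp P z) * u')‖ ≤ 3 * (c2 * s) := by
      rw [norm_mul, norm_mul, id]
      calc ‖z‖ * (‖Complex.exp (rp P z)‖ * ‖u'‖) ≤ 1 * (3 * (c2 * s)) := by
            apply mul_le_mul hz1 _ (by positivity) zero_le_one
            exact mul_le_mul h6 hb2 (norm_nonneg _) (by norm_num)
        _ = 3 * (c2 * s) := one_mul _
    have h8 : ‖(1:ℂ) * (Complex.exp (rp P z) - 1) + id z * (Complex.exp (rp P z) * u')‖ ≤
        2 * (c1 * s) + 3 * (c2 * s) := by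
      refine (norm_add_le _ _).trans (add_le_add ?_ h7)
      rwa [one_mul]
    refine h8.trans ?_
    have : 2 * (c1 * s) + 3 * (c2 * s) ≤ K0 * s := by rw [hK0]; nlinarith
    nlinarith
  constructor
  · intro z hz
    have hz1 : (r₁ + r) / 2 ≤ ‖z‖ := by have := hz.1; linarith
    have hz2 : ‖z‖ ≤ 1 := hz.2.le
    have hz0 : 0 < ‖z‖ := by have := hz.1; linarith
    constructor
    · -- the radial segment
      set e : ℂ := z / (‖z‖ : ℂ) with he
      have hen : ‖e‖ = 1 := by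
        rw [he, norm_div, Complex.norm_real, Real.norm_of_nonneg hz0.le, div_self hz0.ne']
      have hzc : (‖z‖ : ℂ) ≠ 0 := by exact_mod_cast hz0.ne'
      have hez : z = (‖z‖ : ℂ) * e := by
        rw [he, mul_div_cancel₀ _ hzc]
      have hre : (rp P e).re = 0 := by
        have h3 : (conj e)⁻¹ = e := by
          have h4 : e * conj e = 1 := by
            rw [Complex.mul_conj, Complex.normSq_eq_norm_sq, hen]; norm_num
          exact (eq_inv_of_mul_eq_one_left h4).symm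
        rw [rp, h3, Complex.sub_re, Complex.conj_re, sub_self]
      have hseg : ∀ x ∈ segment ℝ e z, (r₁ + r) / 2 ≤ ‖x‖ ∧ ‖x‖ ≤ 1 := by
        intro x hx
        obtain ⟨a, b, ha, hb', hab, rfl⟩ := hx
        have h5 : a • e + b • z = ((a + b * ‖z‖ : ℝ) : ℂ) * e := by
          conv_lhs => rw [hez]
          simp only [Complex.real_smul]; push_cast; ring
        rw [h5, norm_mul, hen, mul_one, Complex.norm_real, Real.norm_of_nonneg (by positivity)]
        constructor <;> nlinarith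
      have hmv := Convex.norm_image_sub_le_of_norm_hasDerivWithin_le (f := rp P)
        (f' := fun z => deriv P z + conj (deriv P (conj z)⁻¹) * (z ^ 2)⁻¹) (C := c2 * s)
        (s := segment ℝ e z)
        (fun x hx => (rp_hasDeriv h0 hP (B (hseg x hx).1 (hseg x hx).2).1).hasDerivWithinAt)
        (fun x hx => (B (hseg x hx).1 (hseg x hx).2).2.2)
        (convex_segment e z) (left_mem_segment ℝ e z) (right_mem_segment ℝ e z)
      have hze : ‖z - e‖ = 1 - ‖z‖ := by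
        have h6 : z - e = ((‖z‖ - 1 : ℝ) : ℂ) * e := by
          conv_lhs => rw [hez]
          push_cast; ring
        rw [h6, norm_mul, hen, mul_one, Complex.norm_real, Real.norm_eq_abs, abs_sub_comm,
          abs_of_nonneg (by linarith)]
      rw [hze] at hmv
      have h7 : (rp P z).re ≤ c2 * s * (1 - ‖z‖) := by
        have h8 := Complex.re_le_norm (rp P z - rp P e)
        rw [Complex.sub_re, hre, sub_zero] at h8
        exact h8.trans hmv
      have h9 : c2 * s < 1 := by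
        have : c2 * s ≤ K0 * s := mul_le_mul_of_nonneg_right (by rw [hK0]; linarith) hs
        nlinarith
      have h10 : (rp P z).re < -Real.log ‖z‖ := by
        have h11 := Real.log_le_sub_one_of_pos hz0
        have h12 : 0 < 1 - ‖z‖ := by have := hz.2; linarith
        nlinarith
      rw [norm_mul, Complex.norm_exp]
      calc ‖z‖ * Real.exp (rp P z).re < ‖z‖ * Real.exp (-Real.log ‖z‖) :=
            mul_lt_mul_of_pos_left (Real.exp_lt_exp.mpr h10) hz0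
        _ = 1 := by rw [Real.exp_neg, Real.exp_log hz0, mul_inv_cancel₀ hz0.ne']
    · have h3 : z * Complex.exp (rp P z) - z = g z := by rw [hg]; ring
      rw [h3]
      exact hgb z hz1 hz2
  · intro z hz w hw hzw
    by_contra hne
    have hz1 : (r₁ + r) / 2 ≤ ‖z‖ := by have := hz.1; linarith
    have hw1 : (r₁ + r) / 2 ≤ ‖w‖ := by have := hw.1; linarith
    have hgz : z - w = g w - g z := by
      have : z * Complex.exp (rp P z) = w * Complex.exp (rp P w) := hzw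
      rw [hg]; simp only; linear_combination this
    have hpos : 0 < ‖z - w‖ := norm_pos_iff.mpr (sub_ne_zero.mpr hne)
    by_cases hseg : ∀ x ∈ segment ℝ z w, (r₁ + r) / 2 ≤ ‖x‖
    · have hseg1 : ∀ x ∈ segment ℝ z w, ‖x‖ ≤ 1 := by
        intro x hx
        have : segment ℝ z w ⊆ closedBall (0:ℂ) 1 :=
          (convex_closedBall (0:ℂ) 1).segment_subset (by simpa using hz.2.le)
            (by simpa using hw.2.le)
        simpa using this hx
      choose! g' hg'1 hg'2 using hgd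
      have hmv := Convex.norm_image_sub_le_of_norm_hasDerivWithin_le (f := g) (f' := g')
        (C := 1 / 2) (s := segment ℝ z w)
        (fun x hx => (hg'1 x (hseg x hx) (hseg1 x hx)).hasDerivWithinAt)
        (fun x hx => hg'2 x (hseg x hx) (hseg1 x hx))
        (convex_segment z w) (left_mem_segment ℝ z w) (right_mem_segment ℝ z w)
      rw [← hgz, norm_sub_rev w z] at hmv
      linarith
    · push Not at hseg
      obtain ⟨x, hx, hxn⟩ := hseg
      have h3 : ‖z - x‖ ≤ ‖z - w‖ := by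
        obtain ⟨a, b, ha, hb', hab, rfl⟩ := hx
        have h5 : z - (a • z + b • w) = (b : ℂ) * (z - w) := by
          have : (a : ℂ) = 1 - b := by rw [← Complex.ofReal_one, ← hab]; push_cast; ring
          simp only [Complex.real_smul]; rw [this]; ring
        rw [h5, norm_mul, Complex.norm_real, Real.norm_of_nonneg hb']
        have : b ≤ 1 := by linarith
        nlinarith [norm_nonneg (z - w)]
      have h4 : ‖z‖ ≤ ‖x‖ + ‖z - x‖ := by
        have := norm_sub_norm_le z x; linarith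
      have h5 : ‖g w - g z‖ ≤ 4 * c1 * s := by
        refine (norm_sub_le _ _).trans ?_
        have := hgb z hz1 hz.2.le
        have := hgb w hw1 hw.2.le
        linarith
      rw [← hgz] at h5
      have h6 : 4 * c1 * s ≤ 2 * K0 * s := by
        have : 4 * c1 ≤ 2 * K0 := by rw [hK0]; linarith
        nlinarith
      have h7 := hz.1
      nlinarith

end Pool.Agent.Helper97.CK
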