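import Pool.Agent.Helper97.CK.Defs
set_option autoImplicit false
open Complex MeasureTheory Metric Set Filter
open scoped Real ComplexConjugate Topology

/-! Project CK: Laurent splitting on a ring. -/

namespace Pool.Agent.Helper97.CK

/-- the Cauchy integral over a circle with centre `0` -/
noncomputable def cau (g : ℂ → ℂ) (r : ℝ) (z : ℂ) : ℂ :=
  (2 * π * I : ℂ)⁻¹ * ∮ s in C(0, r), (s - z)⁻¹ * g s

theorem cau_cont {g : ℂ → ℂ} {r : ℝ} {z : ℂ} (hg : ContinuousOn g (sphere 0 r))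
    (hz : ‖z‖ ≠ r) : ContinuousOn (fun s => (s - z)⁻¹ * g s) (sphere 0 r) := by
  refine ContinuousOn.mul (ContinuousOn.inv₀ (by fun_prop) ?_) hg
  intro s hs h
  rw [sub_eq_zero] at h
  rw [mem_sphere_zero_iff_norm] at hs
  exact hz (h ▸ hs)

/-- bound of the Cauchy integral -/
theorem cau_bound {g : ℂ → ℂ} {r M d : ℝ} (hr : 0 < r) (hd : 0 < d)
    (hM : ∀ s ∈ sphere (0:ℂ) r, ‖g s‖ ≤ M) {z : ℂ}
    (hz : ∀ s ∈ sphere (0:ℂ) r, d ≤ ‖s - z‖) : ‖cau g r z‖ ≤ r * (M / d) := by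
  unfold cau
  rw [← smul_eq_mul]
  refine circleIntegral.norm_two_pi_i_inv_smul_integral_le_of_norm_le_const hr.le ?_
  intro s hs
  rw [norm_mul, norm_inv, div_eq_inv_mul]
  have h1 := hz s hs
  have h2 := hM s hs
  have h3 : 0 ≤ ‖g s‖ := norm_nonneg _
  exact mul_le_mul (inv_anti₀ hd h1) h2 h3 (inv_nonneg.2 hd.le)

/-- differentiability of the Cauchy integral inside -/
theorem cau_diff_in {g : ℂ → ℂ} {r : ℝ} (hr : 0 < r) (hg : ContinuousOn g (sphere 0 r)) :
    DifferentiableOn ℂ (cau g r) (ball 0 r) := by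
  have hci : CircleIntegrable g 0 r := hg.circleIntegrable hr.le
  lift r to NNReal using hr.le
  have h := hasFPowerSeriesOn_cauchy_integral hci (by exact_mod_cast hr)
  have h2 := h.differentiableOn
  rw [Metric.eball_coe] at h2
  refine h2.congr fun z _ => ?_
  simp only [cau, smul_eq_mul]

/-- differentiability of the Cauchy integral outside -/
theorem cau_diff_out {g : ℂ → ℂ} {r : ℝ} (hr : 0 < r) (hg : ContinuousOn g (sphere 0 r)) {z₀ : ℂ}
    (hz₀ : r < ‖z₀‖) : DifferentiableAt ℂ (cau g r) z₀ := by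
  obtain ⟨δ, hδ, hδz⟩ : ∃ δ > 0, r + 2 * δ < ‖z₀‖ := ⟨(‖z₀‖ - r) / 3, by linarith, by linarith⟩
  have hsph : ∀ θ, circleMap 0 r θ ∈ sphere (0:ℂ) r := fun θ => circleMap_mem_sphere 0 hr.le θ
  have hdist : ∀ z ∈ ball z₀ δ, ∀ s ∈ sphere (0:ℂ) r, δ ≤ ‖s - z‖ := by
    intro z hz s hs
    rw [mem_ball, dist_eq_norm] at hz
    rw [mem_sphere_zero_iff_norm] at hs
    have h1 : ‖z₀‖ ≤ ‖z - z₀‖ + ‖z‖ := by
      have := norm_sub_le z (z - z₀)
      rw [sub_sub_cancel] at this
      linarith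
    have h2 : ‖z‖ ≤ ‖s‖ + ‖s - z‖ := by
      have := norm_sub_le s (s - z)
      rwa [sub_sub_cancel] at this
    linarith
  obtain ⟨C, hC⟩ := (isCompact_sphere (0:ℂ) r).exists_bound_of_continuousOn hg
  have hC0 : 0 ≤ C := (norm_nonneg _).trans (hC _ (hsph 0))
  have hcd : Continuous (deriv (circleMap 0 r)) := by
    have : deriv (circleMap 0 r) = fun θ => circleMap 0 r θ * I := by
      funext θ
      exact deriv_circleMap 0 r θ
    rw [this]
    exact (continuous_circleMap 0 r).mul continuous_const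
  have hgc : Continuous fun θ => g (circleMap 0 r θ) :=
    hg.comp_continuous (continuous_circleMap 0 r) hsph
  have hne : ∀ z ∈ ball z₀ δ, ∀ θ, circleMap 0 r θ - z ≠ 0 := by
    intro z hz θ h0
    have := hdist z hz _ (hsph θ)
    rw [h0, norm_zero] at this
    linarith
  have hinv : ∀ z ∈ ball z₀ δ, Continuous fun θ => (circleMap 0 r θ - z)⁻¹ := fun z hz =>
    ((continuous_circleMap 0 r).sub continuous_const).inv₀ (hne z hz)
  have hz0m : z₀ ∈ ball z₀ δ := mem_ball_self hδ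
  have hkey := intervalIntegral.hasDerivAt_integral_of_dominated_loc_of_deriv_le
    (μ := volume) (a := 0) (b := 2 * π)
    (F := fun z θ => deriv (circleMap 0 r) θ • ((circleMap 0 r θ - z)⁻¹ * g (circleMap 0 r θ)))
    (F' := fun z θ => deriv (circleMap 0 r) θ •
      (((circleMap 0 r θ - z)⁻¹ ^ 2) * g (circleMap 0 r θ)))
    (x₀ := z₀) (s := ball z₀ δ) (bound := fun _ => |r| * ((δ⁻¹ ^ 2) * C))
    (ball_mem_nhds z₀ hδ)
    (by
      filter_upwards [ball_mem_nhds z₀ hδ] with z hz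
      exact (hcd.smul ((hinv z hz).mul hgc)).aestronglyMeasurable)
    ((hcd.smul ((hinv z₀ hz0m).mul hgc)).intervalIntegrable _ _)
    ((hcd.smul (((hinv z₀ hz0m).pow 2).mul hgc)).aestronglyMeasurable)
    (by
      refine Eventually.of_forall fun θ _ z hz => ?_
      rw [norm_smul]
      have h1 : ‖deriv (circleMap 0 r) θ‖ = |r| := by
        rw [deriv_circleMap, norm_mul, Complex.norm_I, mul_one, norm_circleMap_zero]
      rw [h1, norm_mul, norm_pow, norm_inv]
      have h2 : ‖circleMap 0 r θ - z‖⁻¹ ≤ δ⁻¹ := inv_anti₀ hδ (hdist z hz _ (hsph θ))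
      have h3 : 0 ≤ ‖circleMap 0 r θ - z‖⁻¹ := inv_nonneg.2 (norm_nonneg _)
      refine mul_le_mul_of_nonneg_left ?_ (abs_nonneg r)
      exact mul_le_mul (pow_le_pow_left₀ h3 h2 2) (hC _ (hsph θ)) (norm_nonneg _) (by positivity))
    (intervalIntegrable_const)
    (by
      refine Eventually.of_forall fun θ _ z hz => ?_
      refine HasDerivAt.const_smul (deriv (circleMap 0 r) θ) ?_
      have h1 : HasDerivAt (fun z : ℂ => circleMap 0 r θ - z) (-1) z := by
        simpa using (hasDerivAt_id z).const_sub (circleMap 0 r θ)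
      have h2 := (h1.inv (hne z hz θ)).mul_const (g (circleMap 0 r θ))
      refine h2.congr_deriv ?_
      rw [neg_neg, one_div, inv_pow])
  have h2 := hkey.2.const_mul ((2 * π * I : ℂ)⁻¹)
  exact h2.differentiableAt

section

variable {r₁ r₂ : ℝ} {g : ℂ → ℂ}

theorem sphere_sub_Ring {r : ℝ} (h1 : r₁ < r) (h2 : r < r₂) : sphere (0:ℂ) r ⊆ Ring r₁ r₂ := by
  intro s hs
  rw [mem_sphere_zero_iff_norm] at hs
  exact ⟨by rw [hs]; exact h1, by rw [hs]; exact h2⟩

theorem annulus_sub_Ring {r r' : ℝ} (h1 : r₁ < r) (h2 : r' < r₂) :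
    closedBall (0:ℂ) r' \ ball 0 r ⊆ Ring r₁ r₂ := by
  intro s hs
  have ha : ‖s‖ ≤ r' := by simpa using hs.1
  have hb : r ≤ ‖s‖ := by simpa using hs.2
  exact ⟨by linarith, by linarith⟩

/-- Cauchy theorem on a ring, function `(s - z)⁻¹ g s` with `z` outside of the ring -/
theorem cau_indep (hg : DifferentiableOn ℂ g (Ring r₁ r₂)) {r r' : ℝ} (h0 : 0 < r) (h1 : r₁ < r)
    (hrr : r ≤ r') (h2 : r' < r₂) {z : ℂ} (hz : ‖z‖ < r ∨ r' < ‖z‖) : cau g r z = cau g r' z := by
  unfold cau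
  congr 1
  symm
  have hsub : closedBall (0:ℂ) r' \ ball 0 r ⊆ Ring r₁ r₂ := annulus_sub_Ring h1 h2
  have hne : ∀ s ∈ closedBall (0:ℂ) r' \ ball 0 r, s - z ≠ 0 := by
    intro s hs h
    rw [sub_eq_zero] at h
    have ha : ‖s‖ ≤ r' := by simpa using hs.1
    have hb : r ≤ ‖s‖ := by simpa using hs.2
    rw [h] at ha hb
    rcases hz with hz | hz <;> linarith
  have hopen : IsOpen (Ring r₁ r₂) := isOpen_Ring r₁ r₂
  refine circleIntegral_eq_of_differentiable_on_annulus_off_countable h0 hrr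
    (s := ∅) countable_empty ?_ ?_
  · refine ContinuousOn.mul (ContinuousOn.inv₀ (by fun_prop) hne) (hg.continuousOn.mono hsub)
  · intro s hs
    have hs' : s ∈ closedBall (0:ℂ) r' \ ball 0 r := by
      refine ⟨ball_subset_closedBall hs.1.1, ?_⟩
      intro h
      exact hs.1.2 (ball_subset_closedBall h)
    have hd : DifferentiableAt ℂ g s := (hg s (hsub hs')).differentiableAt (hopen.mem_nhds (hsub hs'))
    exact ((differentiableAt_id.sub_const z).inv (hne s hs')).mul hd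

/-- Cauchy formula on a ring -/
theorem cau_formula (hg : DifferentiableOn ℂ g (Ring r₁ r₂)) {r r' : ℝ} (h0 : 0 < r) (h1 : r₁ < r)
    (h2 : r' < r₂) {z : ℂ} (hz : r < ‖z‖) (hz' : ‖z‖ < r') : g z = cau g r' z - cau g r z := by
  have hrr : r ≤ r' := by linarith
  have hsub : closedBall (0:ℂ) r' \ ball 0 r ⊆ Ring r₁ r₂ := annulus_sub_Ring h1 h2
  have hopen : IsOpen (Ring r₁ r₂) := isOpen_Ring r₁ r₂
  have hzR : z ∈ Ring r₁ r₂ := ⟨by linarith, by linarith⟩
  have hdz : DifferentiableAt ℂ g z := (hg z hzR).differentiableAt (hopen.mem_nhds hzR)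
  have key : (∮ s in C(0, r'), dslope g z s) = ∮ s in C(0, r), dslope g z s := by
    refine circleIntegral_eq_of_differentiable_on_annulus_off_countable h0 hrr
      (s := {z}) (countable_singleton z) ?_ ?_
    · intro s hs
      by_cases hsz : s = z
      · subst hsz
        exact (continuousAt_dslope_same.2 hdz).continuousWithinAt
      · refine ContinuousAt.continuousWithinAt ?_
        rw [continuousAt_dslope_of_ne hsz]
        exact ((hg s (hsub hs)).differentiableAt (hopen.mem_nhds (hsub hs))).continuousAt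
    · intro s hs
      have hs' : s ∈ closedBall (0:ℂ) r' \ ball 0 r := by
        refine ⟨ball_subset_closedBall hs.1.1, ?_⟩
        intro h
        exact hs.1.2 (ball_subset_closedBall h)
      rw [differentiableAt_dslope_of_ne hs.2]
      exact (hg s (hsub hs')).differentiableAt (hopen.mem_nhds (hsub hs'))
  have hr' : 0 < r' := by linarith
  have hcg : ∀ ρ, r₁ < ρ → ρ < r₂ → ContinuousOn g (sphere 0 ρ) := fun ρ ha hb =>
    hg.continuousOn.mono (sphere_sub_Ring ha hb)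
  have hspl : ∀ ρ, 0 < ρ → r₁ < ρ → ρ < r₂ → ‖z‖ ≠ ρ → (∮ s in C(0, ρ), dslope g z s) =
      (∮ s in C(0, ρ), (s - z)⁻¹ * g s) - (∮ s in C(0, ρ), (s - z)⁻¹) * g z := by
    intro ρ hρ0 ha hb hne
    have hci1 : CircleIntegrable (fun s => (s - z)⁻¹ * g s) 0 ρ :=
      (cau_cont (hcg ρ ha hb) hne).circleIntegrable hρ0.le
    have hci2 : CircleIntegrable (fun s => (s - z)⁻¹ * g z) 0 ρ :=
      (cau_cont (g := fun _ => g z) continuousOn_const hne).circleIntegrable hρ0.le
    have hm : (∮ s in C(0, ρ), (s - z)⁻¹) * g z = ∮ s in C(0, ρ), (s - z)⁻¹ * g z := by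
      simp only [circleIntegral, smul_eq_mul]
      rw [← intervalIntegral.integral_mul_const]
      simp only [mul_assoc]
    rw [hm, ← circleIntegral.integral_sub hci1 hci2]
    refine circleIntegral.integral_congr hρ0.le fun s hs => ?_
    have hsz : s ≠ z := by
      rintro rfl
      rw [mem_sphere_zero_iff_norm] at hs
      exact hne hs
    rw [dslope_of_ne _ hsz, slope_def_field]
    ring
  rw [hspl r' hr' (by linarith) h2 (by linarith), hspl r h0 h1 (by linarith) (by linarith)] at key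
  have hin : (∮ s in C(0, r'), (s - z)⁻¹) = 2 * π * I :=
    circleIntegral.integral_sub_inv_of_mem_ball (by simpa using hz')
  have hout : (∮ s in C(0, r), (s - z)⁻¹) = 0 := by
    have := circleIntegral_eq_zero_of_differentiable_on_off_countable (c := 0) h0.le
      (s := ∅) countable_empty (f := fun s => (s - z)⁻¹) ?_ ?_
    · exact this
    · refine ContinuousOn.inv₀ (by fun_prop) ?_
      intro s hs h
      rw [sub_eq_zero] at h
      have : ‖s‖ ≤ r := by simpa using hs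
      rw [h] at this
      linarith
    · intro s hs
      refine (differentiableAt_id.sub_const z).inv ?_
      intro h
      rw [id, sub_eq_zero] at h
      have : ‖s‖ < r := by simpa using hs.1
      rw [h] at this
      linarith
  rw [hin, hout, zero_mul, sub_zero] at key
  have hpi : (2 * π * I : ℂ) ≠ 0 := by simp [Real.pi_ne_zero]
  unfold cau
  rw [← mul_sub, ← key, sub_sub_cancel, ← mul_assoc, inv_mul_cancel₀ hpi, one_mul]

end

/-- splitting with bounds, no loss of domain (use `g - Cauchy over |s| = r` near the inner circle) -/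
theorem split_exists {r₁ r₂ : ℝ} (h0 : 0 < r₁) (h12 : r₁ < r₂) : ∃ C : ℝ, 0 < C ∧
    ∀ (g : ℂ → ℂ) (M : ℝ), DifferentiableOn ℂ g (Ring r₁ r₂) → (∀ z ∈ Ring r₁ r₂, ‖g z‖ ≤ M) →
    ∃ P Q : ℂ → ℂ, DifferentiableOn ℂ P (Outs r₁) ∧ DifferentiableOn ℂ Q (ball 0 r₂) ∧
      (∀ z, r₁ < ‖z‖ → ‖z‖ * ‖P z‖ ≤ C * M) ∧ (∀ z ∈ ball (0:ℂ) r₂, ‖Q z‖ ≤ C * M) ∧
      ∀ z ∈ Ring r₁ r₂, g z = P z + Q z := by
  -- the middle radius and the two radii of the estimates
  obtain ⟨ρ, hρ1, hρ2⟩ : ∃ ρ, r₁ < ρ ∧ ρ < r₂ := exists_between h12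
  obtain ⟨a, ha1, ha2⟩ : ∃ a, r₁ < a ∧ a < ρ := exists_between hρ1
  obtain ⟨b, hb1, hb2⟩ : ∃ b, ρ < b ∧ b < r₂ := exists_between hρ2
  have ha0 : 0 < a := h0.trans ha1
  have hρ0 : 0 < ρ := h0.trans hρ1
  have hb0 : 0 < b := hρ0.trans hb1
  set CQ : ℝ := b / (b - ρ) with hCQ
  set CP : ℝ := a * ρ / (ρ - a) with hCP
  have hCQ0 : 0 < CQ := div_pos hb0 (by linarith)
  have hCP0 : 0 < CP := div_pos (mul_pos ha0 hρ0) (by linarith)
  refine ⟨CQ + CP + ρ * (1 + CQ) + (1 + CP / ρ), by positivity, ?_⟩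
  intro g M hg hM
  have hzR : ((ρ : ℝ) : ℂ) ∈ Ring r₁ r₂ := by
    refine ⟨?_, ?_⟩ <;> simp [abs_of_pos hρ0, hρ1, hρ2]
  have hM0 : 0 ≤ M := (norm_nonneg _).trans (hM _ hzR)
  have hcg : ∀ r, r₁ < r → r < r₂ → ContinuousOn g (sphere 0 r) := fun r ha hb =>
    hg.continuousOn.mono (sphere_sub_Ring ha hb)
  -- definition of the two parts
  let RQ : ℂ → ℝ := fun z => (max ‖z‖ r₁ + r₂) / 2
  let RP : ℂ → ℝ := fun z => (min ‖z‖ r₂ + r₁) / 2
  let Q : ℂ → ℂ := fun z => cau g (RQ z) z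
  let P : ℂ → ℂ := fun z => - cau g (RP z) z
  have hRQ : ∀ z : ℂ, ‖z‖ < r₂ → ‖z‖ < RQ z ∧ r₁ < RQ z ∧ RQ z < r₂ := by
    intro z hz
    have h1 : ‖z‖ ≤ max ‖z‖ r₁ := le_max_left _ _
    have h2 : r₁ ≤ max ‖z‖ r₁ := le_max_right _ _
    have h3 : max ‖z‖ r₁ < r₂ := max_lt hz h12
    refine ⟨?_, ?_, ?_⟩ <;> simp only [RQ] <;> linarith
  have hRP : ∀ z : ℂ, r₁ < ‖z‖ → RP z < ‖z‖ ∧ r₁ < RP z ∧ RP z < r₂ := by
    intro z hz
    have h1 : min ‖z‖ r₂ ≤ ‖z‖ := min_le_left _ _
    have h2 : min ‖z‖ r₂ ≤ r₂ := min_le_right _ _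
    have h3 : r₁ < min ‖z‖ r₂ := lt_min hz h12
    refine ⟨?_, ?_, ?_⟩ <;> simp only [RP] <;> linarith
  have hQe : ∀ (z : ℂ) (r : ℝ), ‖z‖ < r → r₁ < r → r < r₂ → Q z = cau g r z := by
    intro z r h1 h2 h3
    obtain ⟨k1, k2, k3⟩ := hRQ z (h1.trans h3)
    rcases le_total (RQ z) r with h | h
    · exact cau_indep hg (h0.trans k2) k2 h h3 (Or.inl k1)
    · exact (cau_indep hg (h0.trans h2) h2 h k3 (Or.inl h1)).symm
  have hPe : ∀ (z : ℂ) (r : ℝ), r < ‖z‖ → r₁ < r → r < r₂ → P z = - cau g r z := by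
    intro z r h1 h2 h3
    obtain ⟨k1, k2, k3⟩ := hRP z (h2.trans h1)
    rcases le_total (RP z) r with h | h
    · simp only [P]
      rw [cau_indep hg (h0.trans k2) k2 h h3 (Or.inr h1)]
    · simp only [P]
      rw [(cau_indep hg (h0.trans h2) h2 h k3 (Or.inr k1)).symm]
  have hsum : ∀ z ∈ Ring r₁ r₂, g z = P z + Q z := by
    intro z hz
    obtain ⟨k1, k2, k3⟩ := hRQ z hz.2
    obtain ⟨l1, l2, l3⟩ := hRP z hz.1
    have := cau_formula hg (h0.trans l2) l2 k3 l1 k1
    simp only [P, Q]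
    rw [this]
    ring
  -- first estimates
  have hQ1 : ∀ z : ℂ, ‖z‖ ≤ ρ → ‖Q z‖ ≤ CQ * M := by
    intro z hz
    rw [hQe z b (by linarith) (by linarith) hb2]
    have := cau_bound (g := g) (r := b) (M := M) (d := b - ρ) hb0 (by linarith)
      (fun s hs => hM s (sphere_sub_Ring (by linarith) hb2 hs)) (z := z) ?_
    · refine this.trans (le_of_eq ?_)
      rw [hCQ]
      ring
    · intro s hs
      rw [mem_sphere_zero_iff_norm] at hs
      have := norm_sub_norm_le s z
      linarith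
  have hP1 : ∀ z : ℂ, ρ ≤ ‖z‖ → ‖z‖ * ‖P z‖ ≤ CP * M := by
    intro z hz
    rw [hPe z a (by linarith) ha1 (by linarith), norm_neg]
    have := cau_bound (g := g) (r := a) (M := M) (d := ‖z‖ - a) ha0 (by linarith)
      (fun s hs => hM s (sphere_sub_Ring ha1 (by linarith) hs)) (z := z) ?_
    · refine (mul_le_mul_of_nonneg_left this (norm_nonneg z)).trans ?_
      have hza : 0 < ‖z‖ - a := by linarith
      have e1 : ‖z‖ * (a * (M / (‖z‖ - a))) = (a * M) * (‖z‖ / (‖z‖ - a)) := by ring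
      have e2 : CP * M = (a * M) * (ρ / (ρ - a)) := by rw [hCP]; ring
      rw [e1, e2]
      refine mul_le_mul_of_nonneg_left ?_ (mul_nonneg ha0.le hM0)
      rw [div_le_div_iff₀ hza (by linarith)]
      nlinarith
    · intro s hs
      rw [mem_sphere_zero_iff_norm] at hs
      have := norm_sub_norm_le z s
      rw [norm_sub_rev]
      linarith
  have hCQM : 0 ≤ CQ * M := by positivity
  have hCPM : 0 ≤ CP * M := by positivity
  refine ⟨P, Q, ?_, ?_, ?_, ?_, hsum⟩
  · -- differentiability of `P`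
    intro z hz
    obtain ⟨r, hr1, hr2⟩ : ∃ r, r₁ < r ∧ r < min ‖z‖ r₂ := exists_between (lt_min hz h12)
    have hr3 : r < ‖z‖ := hr2.trans_le (min_le_left _ _)
    have hr4 : r < r₂ := hr2.trans_le (min_le_right _ _)
    have hd := (cau_diff_out (h0.trans hr1) (hcg r hr1 hr4) hr3).neg
    refine (hd.congr_of_eventuallyEq ?_).differentiableWithinAt
    filter_upwards [(isOpen_lt continuous_const continuous_norm).mem_nhds hr3] with w hw
    exact hPe w r hw hr1 hr4
  · intro z hz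
    rw [mem_ball_zero_iff] at hz
    obtain ⟨r, hr1, hr2⟩ : ∃ r, max ‖z‖ r₁ < r ∧ r < r₂ := exists_between (max_lt hz h12)
    have hr3 : ‖z‖ < r := (le_max_left _ _).trans_lt hr1
    have hr4 : r₁ < r := (le_max_right _ _).trans_lt hr1
    have hzb : z ∈ ball (0:ℂ) r := by simpa using hr3
    have hd := ((cau_diff_in (h0.trans hr4) (hcg r hr4 hr2)) z hzb).differentiableAt
      (isOpen_ball.mem_nhds hzb)
    refine (hd.congr_of_eventuallyEq ?_).differentiableWithinAt
    filter_upwards [isOpen_ball.mem_nhds hzb] with w hw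
    rw [mem_ball_zero_iff] at hw
    exact hQe w r hw hr4 hr2
  · intro z hz
    rcases le_total ρ ‖z‖ with h | h
    · refine (hP1 z h).trans (mul_le_mul_of_nonneg_right ?_ hM0)
      have : 0 ≤ CP / ρ := by positivity
      have : 0 ≤ ρ * (1 + CQ) := by positivity
      linarith
    · have hzR' : z ∈ Ring r₁ r₂ := ⟨hz, by linarith⟩
      have e : P z = g z - Q z := by
        rw [hsum z hzR']
        ring
      have h1 : ‖P z‖ ≤ M + CQ * M := by
        rw [e]
        refine (norm_sub_le _ _).trans ?_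
        have := hM z hzR'
        have := hQ1 z h
        linarith
      have h2 : ‖z‖ * ‖P z‖ ≤ ρ * (M + CQ * M) :=
        mul_le_mul h h1 (norm_nonneg _) hρ0.le
      have h3 : 0 ≤ (CP / ρ) * M := by positivity
      have e2 : (CQ + CP + ρ * (1 + CQ) + (1 + CP / ρ)) * M =
          CQ * M + CP * M + ρ * (M + CQ * M) + M + (CP / ρ) * M := by ring
      rw [e2]
      linarith
  · intro z hz
    rw [mem_ball_zero_iff] at hz
    have h3 : 0 ≤ (CP / ρ) * M := by positivity
    have h4 : 0 ≤ ρ * (M + CQ * M) := by positivity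
    have e2 : (CQ + CP + ρ * (1 + CQ) + (1 + CP / ρ)) * M =
        CQ * M + CP * M + ρ * (M + CQ * M) + M + (CP / ρ) * M := by ring
    rw [e2]
    rcases le_total ρ ‖z‖ with h | h
    · have hzR' : z ∈ Ring r₁ r₂ := ⟨by linarith, hz⟩
      have e : Q z = g z - P z := by
        rw [hsum z hzR']
        ring
      have hPz : ‖P z‖ ≤ (CP / ρ) * M := by
        have k1 := hP1 z h
        have k2 : ρ * ‖P z‖ ≤ ‖z‖ * ‖P z‖ := mul_le_mul_of_nonneg_right h (norm_nonneg _)
        have k3 : ρ * ‖P z‖ ≤ CP * M := k2.trans k1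
        have k4 : ‖P z‖ ≤ (CP * M) / ρ := by
          rw [le_div_iff₀ hρ0, mul_comm]
          exact k3
        refine k4.trans (le_of_eq ?_)
        ring
      rw [e]
      refine (norm_sub_le _ _).trans ?_
      have := hM z hzR'
      linarith
    · refine (hQ1 z h).trans ?_
      linarith

/-- uniqueness of the splitting (Liouville) -/
theorem split_unique {r₁ r₂ : ℝ} (h0 : 0 < r₁) (h12 : r₁ < r₂) {P Q : ℂ → ℂ} {M : ℝ}
    (hP : DifferentiableOn ℂ P (Outs r₁)) (hQ : DifferentiableOn ℂ Q (ball 0 r₂))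
    (hM : ∀ z, r₁ < ‖z‖ → ‖z‖ * ‖P z‖ ≤ M) (h : ∀ z ∈ Ring r₁ r₂, P z + Q z = 0) :
    (∀ z, r₁ < ‖z‖ → P z = 0) ∧ ∀ z ∈ ball (0:ℂ) r₂, Q z = 0 := by
  classical
  set F : ℂ → ℂ := fun z => if ‖z‖ < r₂ then Q z else - P z with hF
  have hFQ : ∀ z, ‖z‖ < r₂ → F z = Q z := fun z hz => by simp only [hF, if_pos hz]
  have hFP : ∀ z, r₁ < ‖z‖ → F z = - P z := by
    intro z hz
    by_cases h2 : ‖z‖ < r₂
    · rw [hFQ z h2]
      exact (neg_eq_of_add_eq_zero_right (h z ⟨hz, h2⟩)).symm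
    · simp only [hF, if_neg h2]
  have hFd : Differentiable ℂ F := by
    intro z
    rcases lt_or_ge ‖z‖ r₂ with h2 | h2
    · have hzb : z ∈ ball (0:ℂ) r₂ := by simpa using h2
      refine ((hQ z hzb).differentiableAt (isOpen_ball.mem_nhds hzb)).congr_of_eventuallyEq ?_
      filter_upwards [isOpen_ball.mem_nhds hzb] with w hw
      exact hFQ w (by simpa using hw)
    · have hzo : z ∈ Outs r₁ := h12.trans_le h2
      refine ((hP z hzo).differentiableAt ((isOpen_Outs r₁).mem_nhds hzo)).neg.congr_of_eventuallyEq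
        ?_
      filter_upwards [(isOpen_Outs r₁).mem_nhds hzo] with w hw
      exact hFP w hw
  have hFt : Tendsto F (cocompact ℂ) (𝓝 0) := by
    have hn : Tendsto (fun z : ℂ => ‖z‖) (cocompact ℂ) atTop := tendsto_norm_cocompact_atTop
    have hb : Tendsto (fun z : ℂ => M / ‖z‖) (cocompact ℂ) (𝓝 0) :=
      Tendsto.div_atTop tendsto_const_nhds hn
    refine squeeze_zero_norm' ?_ hb
    filter_upwards [hn.eventually_gt_atTop r₁] with z hz
    rw [hFP z hz, norm_neg, le_div_iff₀ (h0.trans hz), mul_comm]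
    exact hM z hz
  have hF0 : ∀ z, F z = 0 := fun z => hFd.apply_eq_of_tendsto_cocompact z hFt
  refine ⟨fun z hz => ?_, fun z hz => ?_⟩
  · have := hFP z hz
    rw [hF0 z] at this
    exact neg_eq_zero.1 this.symm
  · rw [← hFQ z (by simpa using hz), hF0 z]

end Pool.Agent.Helper97.CK
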