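import Pool.Agent.Helper97.CK.Cross
import Pool.Agent.Helper24.Br.Inj
set_option autoImplicit false
open Complex MeasureTheory Metric Set Filter
open scoped Real ComplexConjugate Topology

/-! Project CK: stability of univalence. -/

namespace Pool.Agent.Helper97.CK

open Pool.Agent.Helper39.Area

/-- a version of `cross_dist` which is large near the pole -/
private theorem stab_cross {β : ℂ → ℂ} (h : Ext β) {r₁ r₁' : ℝ} (h0 : 0 < r₁) (h1 : r₁ < r₁')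
    (h1' : r₁' < 1) : ∃ c : ℝ, 0 < c ∧ ∀ z z' : ℂ, z ≠ 0 → ‖z‖ ≤ r₁ → z' ∈ Ring r₁' 1 →
      c ≤ ‖z‖ * ‖phi β z - phi β z'‖ := by
  obtain ⟨c₂, hc₂, hx⟩ := cross_dist h h0 h1 h1'
  obtain ⟨M, hM⟩ := bdd_ring h (r := r₁') (h0.trans h1)
  obtain ⟨B, hB⟩ : ∃ B : ℝ, ∀ z ∈ closedBall (0:ℂ) r₁, ‖β z‖ ≤ B :=
    (isCompact_closedBall (0:ℂ) r₁).exists_bound_of_continuousOn
      (h.diff.continuousOn.mono fun z hz => mem_ball_of_sphere (h1.trans h1') hz)
  set D : ℝ := 2 * (|B| + |M| + 1) with hD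
  have hD0 : 0 < D := by positivity
  refine ⟨min (D⁻¹ * c₂) (1 / 2), lt_min (by positivity) (by norm_num), ?_⟩
  intro z z' hz hzr hz'
  rcases le_or_gt D⁻¹ ‖z‖ with hc | hc
  · refine (min_le_left _ _).trans ?_
    exact mul_le_mul hc (hx z z' hz hzr hz'.1.le hz'.2) hc₂.le (norm_nonneg z)
  · refine (min_le_right _ _).trans ?_
    have hz0 : 0 < ‖z‖ := norm_pos_iff.2 hz
    have e1 : ‖z‖⁻¹ - B - M ≤ ‖phi β z - phi β z'‖ := by
      have e2 : ‖z⁻¹‖ ≤ ‖phi β z - phi β z'‖ + ‖β z‖ + ‖phi β z'‖ := by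
        have e3 : z⁻¹ = (phi β z - phi β z') + (-β z) + phi β z' := by
          unfold phi
          ring
        calc ‖z⁻¹‖ = ‖(phi β z - phi β z') + (-β z) + phi β z'‖ := by rw [← e3]
          _ ≤ ‖phi β z - phi β z'‖ + ‖-β z‖ + ‖phi β z'‖ := norm_add₃_le
          _ = _ := by rw [norm_neg]
      rw [norm_inv] at e2
      have e4 := hB z (by rwa [mem_closedBall, dist_zero_right])
      have e5 := hM z' hz'.1.le hz'.2
      linarith
    have e6 : 1 - ‖z‖ * (|B| + |M|) ≤ ‖z‖ * ‖phi β z - phi β z'‖ := by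
      have e7 := mul_le_mul_of_nonneg_left e1 hz0.le
      have e8 : ‖z‖ * (‖z‖⁻¹ - B - M) = 1 - ‖z‖ * (B + M) := by
        field_simp
        ring
      rw [e8] at e7
      have e9 : ‖z‖ * (B + M) ≤ ‖z‖ * (|B| + |M|) :=
        mul_le_mul_of_nonneg_left (add_le_add (le_abs_self _) (le_abs_self _)) hz0.le
      linarith
    have e10 : ‖z‖ * (|B| + |M|) ≤ 1 / 2 := by
      have e11 : ‖z‖ * (|B| + |M|) ≤ D⁻¹ * (|B| + |M|) :=
        mul_le_mul_of_nonneg_right hc.le (by positivity)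
      have e12 : D⁻¹ * (|B| + |M|) ≤ 1 / 2 := by
        rw [inv_mul_le_iff₀ hD0, hD]
        linarith
      linarith
    linarith

/-- A function `G = lam * phi γ` close to `phi β` inside, injective on a ring `r₁ < |z| < 1`,
whose values on `r₂ < |z| < 1` are close to values of `phi β` on `r₁' < |z| < 1`, is
univalent. -/
theorem stab {β : ℂ → ℂ} (h : Ext β) {r₁ r₁' r₂ r₃ : ℝ} (h0 : 0 < r₁) (h1 : r₁ < r₁')
    (h1' : r₁' < r₂) (h2 : r₂ < r₃) (h3 : r₃ < 1) : ∃ ε : ℝ, 0 < ε ∧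
    ∀ (G γ : ℂ → ℂ) (lam : ℂ), DifferentiableOn ℂ γ (ball 0 1) → ‖lam - 1‖ ≤ ε →
    (∀ z ∈ ball (0:ℂ) 1, z ≠ 0 → G z = lam * phi γ z) → InjOn G (Ring r₁ 1) →
    (∀ z : ℂ, z ≠ 0 → ‖z‖ ≤ r₃ → ‖z‖ * ‖G z - phi β z‖ ≤ ε) →
    (∀ z ∈ Ring r₂ 1, ∃ z' ∈ Ring r₁' 1, ‖G z - phi β z'‖ ≤ ε) → Ext γ := by
  obtain ⟨c₁, hc₁, hq⟩ := qq_lower h (r := r₂) (h2.trans h3)
  obtain ⟨c₂, hc₂, hx⟩ := stab_cross h h0 h1 ((h1'.trans h2).trans h3)
  have hr : 0 < r₃ - r₂ := sub_pos.2 h2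
  have hr2 : 0 < r₂ := (h0.trans h1).trans h1'
  set K : ℝ := 1 + (r₃ - r₂)⁻¹ with hK
  have hK0 : 0 < K := by positivity
  refine ⟨min (1 / 2) (min (c₂ / 4) (c₁ / (2 * K))), by positivity, ?_⟩
  intro G γ lam hγ hlam hG hinj hin hout
  set ε : ℝ := min (1 / 2) (min (c₂ / 4) (c₁ / (2 * K))) with hε
  have hε1 : ε ≤ 1 / 2 := min_le_left _ _
  have hε2 : ε ≤ c₂ / 4 := (min_le_right _ _).trans (min_le_left _ _)
  have hε3 : ε ≤ c₁ / (2 * K) := (min_le_right _ _).trans (min_le_right _ _)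
  have hε0 : 0 < ε := by positivity
  have hlam0 : lam ≠ 0 := by
    rintro rfl
    rw [zero_sub, norm_neg, norm_one] at hlam
    linarith
  -- the error function
  set E : ℂ → ℂ := fun z => lam * (1 + z * γ z) - (1 + z * β z) with hE
  have hEd : DifferentiableOn ℂ E (ball 0 1) := by
    have hβ := h.diff
    simp only [hE]
    fun_prop
  have hEeq : ∀ z ∈ ball (0:ℂ) 1, z ≠ 0 → G z = phi β z + E z / z := by
    intro z hz hz0
    rw [hG z hz hz0, hE]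
    unfold phi
    field_simp
    ring
  have hEle : ∀ z : ℂ, ‖z‖ ≤ r₃ → ‖E z‖ ≤ ε := by
    intro z hz
    have hz1 : z ∈ ball (0:ℂ) 1 := by
      rw [mem_ball, dist_zero_right]
      linarith
    by_cases hz0 : z = 0
    · subst hz0
      simpa [hE] using hlam
    · have e1 := hin z hz0 hz
      rw [hEeq z hz1 hz0, add_sub_cancel_left, norm_div, mul_div_cancel₀] at e1
      · exact e1
      · exact norm_ne_zero_iff.2 hz0
  have hder : ∀ z ∈ closedBall (0:ℂ) r₂, ‖deriv E z‖ ≤ ε * (r₃ - r₂)⁻¹ := by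
    intro z hz
    rw [mem_closedBall, dist_zero_right] at hz
    rw [← div_eq_mul_inv]
    refine Complex.norm_deriv_le_of_forall_mem_sphere_norm_le hr ?_ fun w hw => ?_
    · refine DifferentiableOn.diffContOnCl_ball (U := ball (0:ℂ) 1) hEd ?_
      intro w hw
      rw [mem_closedBall, dist_eq_norm] at hw
      rw [mem_ball, dist_zero_right]
      calc ‖w‖ = ‖(w - z) + z‖ := by rw [sub_add_cancel]
        _ ≤ ‖w - z‖ + ‖z‖ := norm_add_le _ _
        _ ≤ (r₃ - r₂) + r₂ := add_le_add hw hz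
        _ < 1 := by linarith
    · refine hEle w ?_
      rw [mem_sphere, dist_eq_norm] at hw
      calc ‖w‖ = ‖(w - z) + z‖ := by rw [sub_add_cancel]
        _ ≤ ‖w - z‖ + ‖z‖ := norm_add_le _ _
        _ ≤ (r₃ - r₂) + r₂ := add_le_add hw.le hz
        _ = r₃ := by ring
  have hLip : ∀ x ∈ closedBall (0:ℂ) r₂, ∀ y ∈ closedBall (0:ℂ) r₂,
      ‖E y - E x‖ ≤ ε * (r₃ - r₂)⁻¹ * ‖y - x‖ := by
    intro x hx y hy
    refine (convex_closedBall (0:ℂ) r₂).norm_image_sub_le_of_norm_deriv_le (fun z hz => ?_) hder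
      hx hy
    exact hEd.differentiableAt (isOpen_ball.mem_nhds (mem_ball_of_sphere (h2.trans h3) hz))
  -- the three cases
  have hii : ∀ x y : ℂ, x ≠ 0 → y ≠ 0 → ‖x‖ ≤ r₂ → ‖y‖ ≤ r₂ → G x = G y → x = y := by
    intro x y hx0 hy0 hxr hyr hxy
    by_contra hne
    have hx1 : x ∈ closedBall (0:ℂ) r₂ := by rwa [mem_closedBall, dist_zero_right]
    have hy1 : y ∈ closedBall (0:ℂ) r₂ := by rwa [mem_closedBall, dist_zero_right]
    have e1 := phi_sub (β := β) y x hy0 hx0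
    have e2 : (y - x) * qq β y x = x * (E y - E x) - (y - x) * E x := by
      rw [hEeq x (mem_ball_of_sphere (h2.trans h3) hx1) hx0,
        hEeq y (mem_ball_of_sphere (h2.trans h3) hy1) hy0] at hxy
      have e3 : (x⁻¹ - y⁻¹) * qq β y x = E y / y - E x / x := by
        rw [← e1]
        linear_combination hxy
      have e4 : (y - x) * qq β y x = x * y * ((x⁻¹ - y⁻¹) * qq β y x) := by
        field_simp
      rw [e4, e3]
      field_simp
      ring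
    have e5 : ‖y - x‖ * c₁ ≤ ‖y - x‖ * (ε * K) := by
      calc ‖y - x‖ * c₁ ≤ ‖y - x‖ * ‖qq β y x‖ :=
            mul_le_mul_of_nonneg_left (hq y x hyr hxr) (norm_nonneg _)
        _ = ‖x * (E y - E x) - (y - x) * E x‖ := by rw [← norm_mul, e2]
        _ ≤ ‖x * (E y - E x)‖ + ‖(y - x) * E x‖ := norm_sub_le _ _
        _ = ‖x‖ * ‖E y - E x‖ + ‖y - x‖ * ‖E x‖ := by rw [norm_mul, norm_mul]
        _ ≤ 1 * (ε * (r₃ - r₂)⁻¹ * ‖y - x‖) + ‖y - x‖ * ε := by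
            refine add_le_add (mul_le_mul (by linarith) (hLip x hx1 y hy1) (norm_nonneg _)
              zero_le_one) (mul_le_mul_of_nonneg_left (hEle x (by linarith)) (norm_nonneg _))
        _ = ‖y - x‖ * (ε * K) := by
            rw [hK]
            ring
    have hpos : 0 < ‖y - x‖ := norm_pos_iff.2 (sub_ne_zero.2 (Ne.symm hne))
    have e6 : c₁ ≤ ε * K := le_of_mul_le_mul_left e5 hpos
    have e7 : ε * K ≤ c₁ / 2 := by
      calc ε * K ≤ c₁ / (2 * K) * K := mul_le_mul_of_nonneg_right hε3 hK0.le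
        _ = c₁ / 2 := by
            field_simp
    linarith
  have hio : ∀ x y : ℂ, x ≠ 0 → ‖x‖ ≤ r₁ → y ∈ Ring r₂ 1 → G x ≠ G y := by
    intro x y hx0 hxr hy hxy
    obtain ⟨z', hz', e1⟩ := hout y hy
    have e2 := hx x z' hx0 hxr hz'
    have e3 := hin x hx0 (by linarith)
    have hxp : 0 < ‖x‖ := norm_pos_iff.2 hx0
    have e4 : ‖phi β x - phi β z'‖ ≤ ‖G x - phi β x‖ + ‖G y - phi β z'‖ := by
      have e5 : phi β x - phi β z' = (G y - phi β z') - (G x - phi β x) := by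
        rw [hxy]
        ring
      rw [e5]
      refine (norm_sub_le _ _).trans ?_
      linarith
    have e6 : ‖x‖ * ‖phi β x - phi β z'‖ ≤ ε + ε := by
      calc ‖x‖ * ‖phi β x - phi β z'‖ ≤ ‖x‖ * (‖G x - phi β x‖ + ‖G y - phi β z'‖) :=
            mul_le_mul_of_nonneg_left e4 hxp.le
        _ = ‖x‖ * ‖G x - phi β x‖ + ‖x‖ * ‖G y - phi β z'‖ := by ring
        _ ≤ ε + 1 * ε := add_le_add e3
            (mul_le_mul (by linarith) e1 (norm_nonneg _) zero_le_one)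
        _ = ε + ε := by ring
    linarith
  have hmain : ∀ x y : ℂ, x ∈ ball (0:ℂ) 1 → y ∈ ball (0:ℂ) 1 → x ≠ 0 → y ≠ 0 → ‖x‖ ≤ ‖y‖ →
      G x = G y → x = y := by
    intro x y hx1 hy1 hx0 hy0 hxy hG'
    rw [mem_ball, dist_zero_right] at hx1 hy1
    rcases lt_or_ge r₁ ‖x‖ with hc | hc
    · exact hinj ⟨hc, hx1⟩ ⟨hc.trans_le hxy, hy1⟩ hG'
    · rcases lt_or_ge r₂ ‖y‖ with hd | hd
      · exact absurd hG' (hio x y hx0 hc ⟨hd, hy1⟩)
      · exact hii x y hx0 hy0 (hxy.trans hd) hd hG'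
  have hinjG : ∀ ζ ω : ℂ, ζ ∈ ball (0:ℂ) 1 → ω ∈ ball (0:ℂ) 1 → ζ ≠ 0 → ω ≠ 0 →
      phi γ ζ = phi γ ω → ζ = ω := by
    intro x y hx1 hy1 hx0 hy0 hxy
    have e1 : G x = G y := by rw [hG x hx1 hx0, hG y hy1 hy0, hxy]
    rcases le_total ‖x‖ ‖y‖ with hc | hc
    · exact hmain x y hx1 hy1 hx0 hy0 hc e1
    · exact (hmain y x hy1 hx1 hy0 hx0 hc e1.symm).symm
  refine ⟨hγ, hinjG, fun ζ hζ => ?_⟩
  by_cases hζ0 : ζ = 0
  · subst hζ0
    simp
  · have hU : IsOpen (ball (0:ℂ) 1 ∩ {0}ᶜ) := isOpen_ball.inter isOpen_compl_singleton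
    have hd : DifferentiableOn ℂ (phi γ) (ball (0:ℂ) 1 ∩ {0}ᶜ) := fun w hw =>
      (hasDerivAt_phi hγ hw.1 hw.2).differentiableAt.differentiableWithinAt
    have hi : InjOn (phi γ) (ball (0:ℂ) 1 ∩ {0}ᶜ) := fun x hx y hy hxy =>
      hinjG x y hx.1 hy.1 hx.2 hy.2 hxy
    have hne := Pool.Agent.Helper24.Br.deriv_ne_of_inj hU hd hi (z := ζ) ⟨hζ, hζ0⟩
    rw [(hasDerivAt_phi hγ hζ hζ0).deriv] at hne
    intro hcon
    apply hne
    unfold dphi
    have e1 : ζ ^ 2 * deriv γ ζ = 1 := by linear_combination -hcon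
    have e2 : deriv γ ζ = (ζ ^ 2)⁻¹ := by
      rw [eq_inv_of_mul_eq_one_right e1]
    rw [e2]
    ring

end Pool.Agent.Helper97.CK
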